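import Pool.Agent.Lib.MP_528c50_co.Cs.Defs

/-! Agreement sets: all subsets occur, and their number is bounded through irredundant bases. -/

namespace Pool.Agent.Lib.MP_528c50_co.Cs

open Finset

variable {C K : Type} [Fintype K] [DecidableEq K] {Γ : Subgroup (Equiv.Perm K)}

open Classical in
/-- The number of translates of `d` that agree with `c` on `T` and nowhere on `U`. -/
noncomputable def traceN (Γ : Subgroup (Equiv.Perm K)) (c d : K → C) (T U : Finset K) : ℕ :=
  (univ.filter fun g : Equiv.Perm K =>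
    g ∈ Γ ∧ (∀ x ∈ T, d (g x) = c x) ∧ ∀ x ∈ U, d (g x) ≠ c x).card

theorem trace_split (c d : K → C) (T U : Finset K) (x : K) :
    traceN Γ c d T U = traceN Γ c d (insert x T) U + traceN Γ c d T (insert x U) := by
  classical
  unfold traceN
  rw [← card_filter_add_card_filter_not (fun g : Equiv.Perm K => d (g x) = c x), filter_filter,
    filter_filter]
  refine congrArg₂ _ (congrArg _ (filter_congr fun g _ => ?_))
    (congrArg _ (filter_congr fun g _ => ?_)) <;> simp only [forall_mem_insert] <;> tauto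

theorem trace_empty (c d : K → C) (T : Finset K) : traceN Γ c d T ∅ = cnt Γ d T c := by
  unfold traceN cnt
  refine congrArg _ (Finset.ext fun g => ?_)
  simp

theorem trace_eq_iff (W : Finset K) (c c' : K → C) (h : ∀ T ⊂ W, cnt Γ c T c = cnt Γ c' T c)
    (h' : cnt Γ c W c ≠ cnt Γ c' W c) (U : Finset K) : ∀ T, Disjoint T U → T ∪ U ⊆ W →
      (traceN Γ c c T U = traceN Γ c c' T U ↔ T ∪ U ≠ W) := by
  induction U using Finset.induction_on with
  | empty =>
    intro T _ hT
    rw [union_empty] at hT ⊢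
    rw [trace_empty, trace_empty]
    exact ⟨fun e e' => h' (e' ▸ e), fun e => h T (hT.ssubset_of_ne e)⟩
  | insert x U hx ih =>
    intro T hd hT
    rw [disjoint_insert_right] at hd
    have e : T ∪ insert x U = insert x T ∪ U := by rw [union_insert, insert_union]
    have s : T ∪ U ⊆ W := (union_subset_union_right (subset_insert x U)).trans hT
    have a := (ih T hd.2 s).2 fun q => by
      have := hT (mem_union_right _ (mem_insert_self x U))
      rw [← q, mem_union] at this
      exact this.elim hd.1 hx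
    rw [trace_split c c T U x, trace_split c c' T U x] at a
    rw [e, ← ih (insert x T) (disjoint_insert_left.2 ⟨hx, hd.2⟩) (e ▸ hT)]
    omega

theorem trace_zero {W X : Finset K} {c d : K → C} (hX : X ⊆ W) (h : ¬ IsTr Γ W c d X) :
    traceN Γ c d X (W \ X) = 0 := by
  classical
  unfold traceN
  rw [card_eq_zero, filter_eq_empty_iff]
  rintro g - ⟨hg, h1, h2⟩
  exact h ⟨g, hg, fun x => ⟨fun hx => ⟨hX hx, h1 x hx⟩, fun hx =>
    by_contra fun n => h2 x (mem_sdiff.2 ⟨hx.1, n⟩) hx.2⟩⟩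

theorem all_traces (W : Finset K) (c c' : K → C) (h : ∀ T ⊂ W, cnt Γ c T c = cnt Γ c' T c)
    (h' : cnt Γ c W c ≠ cnt Γ c' W c) : ∀ X ⊆ W, IsTr Γ W c c X ∨ IsTr Γ W c c' X := by
  intro X hX
  by_contra n
  rw [not_or] at n
  have e := union_sdiff_of_subset hX
  exact (trace_eq_iff W c c' h h' (W \ X) X disjoint_sdiff e.subset).1
    (by rw [trace_zero hX n.1, trace_zero hX n.2]) e

omit [Fintype K] [DecidableEq K] in
/-- A base of length at most `l` inside `X`. -/
theorem trace_base {l : ℕ} (hl : Irr Γ l) (X : Finset K) : ∃ r ≤ l, ∃ x : Fin r → K,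
    (∀ i, x i ∈ X) ∧ ∀ h ∈ Γ, (∀ i, h (x i) = x i) → ∀ z ∈ X, h z = z := by
  by_contra n
  push Not at n
  have key : ∀ r, ∃ x : Fin r → K, (∀ i, x i ∈ X) ∧
      ∀ i, ∃ g ∈ Γ, (∀ j < i, g (x j) = x j) ∧ g (x i) ≠ x i := by
    intro r
    induction r with
    | zero => exact ⟨Fin.elim0, fun i => i.elim0, fun i => i.elim0⟩
    | succ r ih =>
      obtain ⟨x, h1, h2⟩ := ih
      obtain ⟨h, hh, h3, z, hz, h4⟩ := n r (hl r x h2) x h1
      refine ⟨Fin.snoc x z, fun i => ?_, fun i => ?_⟩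
      · induction i using Fin.lastCases <;> simp [*]
      induction i using Fin.lastCases with
      | last =>
        refine ⟨h, hh, fun j hj => ?_, by simpa using h4⟩
        obtain ⟨j, rfl⟩ := Fin.exists_castSucc_eq.2 hj.ne
        simpa using h3 j
      | cast i =>
        obtain ⟨g, hg, h5, h6⟩ := h2 i
        refine ⟨g, hg, fun j hj => ?_, by simpa using h6⟩
        obtain ⟨j, rfl⟩ := Fin.exists_castSucc_eq.2 (hj.trans (Fin.castSucc_lt_last i)).ne
        simpa using h5 j (Fin.castSucc_lt_castSucc_iff.1 hj)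
  obtain ⟨x, -, h⟩ := key (l + 1)
  exact absurd (hl _ x h) (by omega)

omit [Fintype K] in
theorem trace_card {l : ℕ} (hl : Irr Γ l) (W W' : Finset K) (c c' : K → C)
    (hW : ∀ x ∈ W, ∀ y, c' y = c x → y ∈ W') (A : Finset (Finset K))
    (hA : ∀ X ∈ A, IsTr Γ W c c' X) : A.card ≤ (W.card * W'.card + 1) ^ l := by
  have key : ∀ X, ∃ e : Fin l → Option (K × K), X ∈ A →
      (∀ i, e i ∈ insertNone (W ×ˢ W')) ∧ ∃ g ∈ Γ, (∀ x, x ∈ X ↔ x ∈ W ∧ c' (g x) = c x) ∧
        (∀ i p, e i = some p → g p.1 = p.2) ∧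
        ∀ h ∈ Γ, (∀ i p, e i = some p → h p.1 = p.1) → ∀ z ∈ X, h z = z := by
    intro X
    by_cases hX : X ∈ A
    swap
    · exact ⟨fun _ => none, fun h => absurd h hX⟩
    obtain ⟨g, hg, ht⟩ := hA X hX
    obtain ⟨r, hr, x, h1, h2⟩ := trace_base hl X
    refine ⟨fun i => if q : (i : ℕ) < r then some (x ⟨i, q⟩, g (x ⟨i, q⟩)) else none,
      fun _ => ⟨fun i => ?_, g, hg, ht, fun i p q => ?_, fun h hh q => h2 h hh fun i => ?_⟩⟩
    · dsimp only
      split_ifs with q
      · have := (ht _).1 (h1 ⟨i, q⟩)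
        exact some_mem_insertNone.2 (mem_product.2 ⟨this.1, hW _ this.1 _ this.2⟩)
      · exact none_mem_insertNone
    · dsimp only at q
      split_ifs at q
      rw [← Option.some.inj q]
    · exact q ⟨i, i.2.trans_le hr⟩ (x i, g (x i)) (dif_pos i.2)
  choose e he using key
  have := card_le_card_of_injOn (s := A) (t := Fintype.piFinset fun _ => insertNone (W ×ˢ W')) e
    (fun X hX => mem_coe.2 (Fintype.mem_piFinset.2 (he X hX).1)) fun X hX Y hY q => by
      obtain ⟨-, g, hg, a1, a2, a3⟩ := he X hX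
      obtain ⟨-, g', hg', b1, b2, b3⟩ := he Y hY
      rw [← q] at b2 b3
      have m := Γ.mul_mem (Γ.inv_mem hg') hg
      have f : ∀ z, (g'⁻¹ * g) z = z ↔ g z = g' z := fun z => by
        rw [Equiv.Perm.mul_apply, Equiv.Perm.inv_eq_iff_eq]
      have k : ∀ i p, e X i = some p → (g'⁻¹ * g) p.1 = p.1 := fun i p hp =>
        (f _).2 ((a2 i p hp).trans (b2 i p hp).symm)
      ext z
      exact ⟨fun hz => (b1 z).2 ((f z).1 (a3 _ m k z hz) ▸ (a1 z).1 hz),
        fun hz => (a1 z).2 ((f z).1 (b3 _ m k z hz) ▸ (b1 z).1 hz)⟩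
  simpa [card_insertNone] using this

theorem num_bound {l N : ℕ} (h : 2 ^ N ≤ 2 * (N * N + 1) ^ l) :
    N < 4 * l * (Nat.log 2 l + 4) + 2 := by
  by_contra n
  have ht := Nat.lt_pow_succ_log_self (b := 2) (by norm_num) l
  have hu := Nat.lt_pow_succ_log_self (b := 2) (by norm_num) (N + 1)
  have hu' := Nat.pow_log_le_self 2 (x := N + 1) (by omega)
  generalize Nat.log 2 l = t at n ht
  generalize Nat.log 2 (N + 1) = u at hu hu'
  have a : N * N + 1 ≤ 2 ^ (2 * (u + 1)) := by
    rw [pow_mul']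
    have := Nat.pow_le_pow_left (hu.le : N + 1 ≤ 2 ^ (u + 1)) 2
    generalize (2 ^ (u + 1)) ^ 2 = y at this
    nlinarith
  have b : 2 * (u + 1) * l + 1 < N := by
    rcases le_or_gt (u + 1) (2 * (t + 4)) with q | q
    · nlinarith [Nat.mul_le_mul_left l q]
    · obtain ⟨v, rfl⟩ : ∃ v, u = (t + 1) + (v + 1) + 1 := ⟨u - t - 3, by omega⟩
      have c : t + 1 + (v + 1) + 1 + 1 ≤ 2 ^ (v + 1) := by
        have := v.lt_two_pow_self
        rw [pow_succ]
        omega
      have d := Nat.mul_le_mul c (Nat.succ_le_of_lt ht)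
      rw [pow_succ, pow_add] at hu'
      simp only [Nat.succ_eq_add_one] at d
      nlinarith
  have := Nat.pow_le_pow_left a l
  rw [← pow_mul] at this
  have := Nat.pow_lt_pow_right (a := 2) (by norm_num) b
  rw [pow_succ] at this
  omega

end Pool.Agent.Lib.MP_528c50_co.Cs
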