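import Pool.Agent.Lib.MP_528c50_co.Cs.Defs

/-! Colourings of small sets occur equally often in the two orbits. -/

namespace Pool.Agent.Lib.MP_528c50_co.Cs

open Finset

variable {C K : Type} [Fintype K] [DecidableEq K] (F : Fo C)

open Classical in
/-- The indicator of agreement on `T`. -/
noncomputable def tradeI (T : Finset K) (z t : K → C) : ℕ := if ∀ x ∈ T, z x = t x then 1 else 0

theorem trade_congr {T : Finset K} {z t z' t' : K → C} (h : ∀ u ∈ T, z u = t u ↔ z' u = t' u) :
    tradeI T z t = tradeI T z' t' := by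
  by_cases e : ∀ u ∈ T, z u = t u
  · rw [tradeI, tradeI, if_pos e, if_pos ((forall₂_congr h).1 e)]
  · rw [tradeI, tradeI, if_neg e, if_neg (mt (forall₂_congr h).2 e)]

open Classical in
theorem trade_cnt (Γ : Subgroup (Equiv.Perm K)) (c : K → C) (T : Finset K) (t : K → C) :
    cnt Γ c T t = ∑ g ∈ univ.filter fun g : Equiv.Perm K => g ∈ Γ, tradeI T (c ∘ g) t := by
  rw [cnt, ← filter_filter, card_filter]
  refine sum_congr rfl fun g _ => ?_
  simp only [tradeI, Function.comp_apply]

theorem trade_inv {Γ : Subgroup (Equiv.Perm K)} (T : Finset K) (t : K → C) {g : Equiv.Perm K}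
    (hg : g ∈ Γ) (y : K → C) : cnt Γ (y ∘ g) T t = cnt Γ y T t := by
  classical
  unfold cnt
  refine card_equiv (Equiv.mulLeft g) fun f => ?_
  simp [Γ.mul_mem_cancel_left hg]

theorem trade_ite [DecidableEq C] (M : Multiset C) (a : C) (n : ℕ) :
    (M.map fun s => if s = a then n else 0).sum = M.count a * n := by
  induction M using Multiset.induction_on with
  | empty => simp
  | cons s M ih =>
    rw [Multiset.map_cons, Multiset.sum_cons, ih, Multiset.count_cons]
    by_cases h : s = a
    · simp [h, add_mul, add_comm]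
    · simp [h, Ne.symm h]

theorem trade_point [DecidableEq C] (T : Finset K) {z : K → C} {RR : Finset C}
    (hz : ∀ x, z x ∈ RR) (t : K → C) :
    F.dsum z (fun y => tradeI T y t) + (∑ x ∈ T, (F.del (t x)).card) * tradeI T z t =
      (∑ x, (F.del (z x)).card) * tradeI T z t +
        ∑ x ∈ T, ∑ R ∈ RR, (F.del R).count (t x) * tradeI T z (Function.update t x R) := by
  have h1 : (∑ x ∈ T, (F.del (t x)).card) * tradeI T z t =
      (∑ x ∈ T, (F.del (z x)).card) * tradeI T z t := by
    by_cases h : ∀ x ∈ T, z x = t x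
    · rw [sum_congr rfl fun x hx => congrArg (fun s => (F.del s).card) (h x hx)]
    · simp only [tradeI, if_neg h, mul_zero]
  have h2 : ∀ x ∈ Tᶜ, ((F.del (z x)).map fun s => tradeI T (Function.update z x s) t).sum =
      (F.del (z x)).card * tradeI T z t := by
    intro x hx
    have e : ∀ s, tradeI T (Function.update z x s) t = tradeI T z t := fun s => by
      refine trade_congr fun u hu => ?_
      rw [Function.update_of_ne (fun e : u = x => mem_compl.1 hx (e ▸ hu))]
    simp [e]
  have h3 : ∀ x ∈ T, ((F.del (z x)).map fun s => tradeI T (Function.update z x s) t).sum =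
      ∑ R ∈ RR, (F.del R).count (t x) * tradeI T z (Function.update t x R) := by
    intro x hx
    rw [sum_eq_single_of_mem (z x) (hz x), ← trade_ite]
    · refine congrArg _ (Multiset.map_congr rfl fun s _ => ?_)
      by_cases h : s = t x
      · rw [if_pos h]
        refine trade_congr fun u _ => ?_
        by_cases e : u = x
        · simp [e, h]
        · simp [e]
      · rw [if_neg h, tradeI, if_neg fun e => h (by simpa using e x hx)]
    · intro R _ hR
      rw [tradeI, if_neg fun e => hR (by simpa using (e x hx).symm), mul_zero]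
  rw [h1, Fo.dsum, ← sum_add_sum_compl T, sum_congr rfl h2, sum_congr rfl h3, ← sum_mul,
    ← sum_add_sum_compl T fun x => (F.del (z x)).card]
  ring

open Classical in
theorem trade_sum (Γ : Subgroup (Equiv.Perm K)) (c : K → C) (T : Finset K) (t : K → C) :
    F.dsum c (fun y => cnt Γ y T t) =
      ∑ g ∈ univ.filter fun g : Equiv.Perm K => g ∈ Γ, F.dsum (c ∘ g) fun y => tradeI T y t := by
  simp only [Fo.dsum, trade_cnt, Multiset.sum_map_sum]
  rw [sum_comm]
  refine sum_congr rfl fun g _ => ?_
  rw [← Equiv.sum_comp g]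
  refine sum_congr rfl fun x _ => ?_
  simp only [Function.update_comp_eq_of_injective _ g.injective, Function.comp_apply]

theorem trade_main [DecidableEq C] (Γ : Subgroup (Equiv.Perm K)) (T : Finset K) {c : K → C}
    {RR : Finset C} (hc : ∀ x, c x ∈ RR) (t : K → C) :
    F.dsum c (fun y => cnt Γ y T t) + (∑ x ∈ T, (F.del (t x)).card) * cnt Γ c T t =
      (∑ x, (F.del (c x)).card) * cnt Γ c T t +
        ∑ x ∈ T, ∑ R ∈ RR, (F.del R).count (t x) * cnt Γ c T (Function.update t x R) := by
  classical
  rw [trade_sum]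
  simp only [trade_cnt Γ c, mul_sum]
  rw [← sum_add_distrib, sum_congr rfl fun x _ => sum_comm, sum_comm (s := T), ← sum_add_distrib]
  refine sum_congr rfl fun g _ => ?_
  rw [trade_point F T (z := c ∘ g) (RR := RR) (fun x => hc _) t]
  congr 2
  exact Equiv.sum_comp g fun x => (F.del (c x)).card

theorem trade_ex {Γ : Subgroup (Equiv.Perm K)} {c : K → C} {T : Finset K} {t : K → C}
    (h : cnt Γ c T t ≠ 0) : ∃ g : Equiv.Perm K, ∀ x ∈ T, c (g x) = t x := by
  classical
  obtain ⟨g, hg⟩ := card_ne_zero.1 h
  exact ⟨g, (mem_filter.1 hg).2.2⟩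

theorem trade_sz {Γ : Subgroup (Equiv.Perm K)} {c : K → C} {T : Finset K} {t : K → C}
    (h : ∑ x, F.sz (c x) < ∑ x ∈ T, F.sz (t x)) : cnt Γ c T t = 0 := by
  by_contra h0
  obtain ⟨g, hg⟩ := trade_ex h0
  rw [← sum_congr rfl fun x hx => congrArg F.sz (hg x hx),
    ← Equiv.sum_comp g fun x => F.sz (c x)] at h
  exact absurd (sum_le_sum_of_subset (subset_univ T)) (not_le.2 h)

theorem trade_lt {Γ : Subgroup (Equiv.Perm K)} {c : K → C} {T : Finset K} {t : K → C}
    (hT : T.card < (F.sup c).card) (h0 : cnt Γ c T t ≠ 0) :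
    ∑ x ∈ T, (F.del (t x)).card < ∑ x, (F.del (c x)).card := by
  obtain ⟨g, hg⟩ := trade_ex h0
  obtain ⟨u, hu, hu'⟩ := exists_mem_notMem_of_card_lt_card (s := T.map g.toEmbedding)
    (t := F.sup c) (by rwa [card_map])
  rw [← sum_congr rfl fun x hx => congrArg (fun s => (F.del s).card) (hg x hx),
    ← Equiv.sum_comp g fun x => (F.del (c x)).card]
  refine sum_lt_sum_of_subset (subset_univ T) (mem_univ (g.symm u)) (fun h => hu' ?_) ?_
    fun _ _ _ => Nat.zero_le _
  · exact mem_map.2 ⟨_, h, by simp⟩
  · rw [Equiv.apply_symm_apply]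
    exact Multiset.card_pos.2 fun e => F.mem_sup.1 hu (F.eq_o _ e)

theorem Fo.cnt_eq {Γ : Subgroup (Equiv.Perm K)} {c c' : K → C} (h : F.Hyp Γ c c') {T : Finset K}
    (hT : T.card < (F.sup c).card) (hT' : T.card < (F.sup c').card) (t : K → C) :
    cnt Γ c T t = cnt Γ c' T t := by
  classical
  have hk : ∑ x, (F.del (c x)).card = ∑ x, (F.del (c' x)).card := by
    simpa [Fo.dsum] using h (fun _ => 1) fun _ _ _ => rfl
  have key : ∀ n, ∀ t : K → C, ∑ x, F.sz (c x) + ∑ x, F.sz (c' x) < ∑ x ∈ T, F.sz (t x) + n →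
      cnt Γ c T t = cnt Γ c' T t := by
    intro n
    induction n with
    | zero => exact fun t ht => by rw [trade_sz F (by omega), trade_sz F (by omega)]
    | succ n ih =>
      intro t ht
      have e1 := trade_main F Γ T (c := c) (RR := univ.image c ∪ univ.image c') (by simp) t
      have e2 := trade_main F Γ T (c := c') (RR := univ.image c ∪ univ.image c') (by simp) t
      have e3 := h (fun y => cnt Γ y T t) fun g hg y => trade_inv T t hg y
      have e4 : ∀ x ∈ T, ∀ R ∈ univ.image c ∪ univ.image c',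
          (F.del R).count (t x) * cnt Γ c T (Function.update t x R) =
            (F.del R).count (t x) * cnt Γ c' T (Function.update t x R) := by
        intro x hx R _
        by_cases hR : t x ∈ F.del R
        · rw [ih]
          have a1 := F.sz_del _ _ hR
          have a2 := add_sum_erase T (fun u => F.sz (t u)) hx
          have a3 := add_sum_erase T (fun u => F.sz (Function.update t x R u)) hx
          rw [sum_congr rfl fun u hu => by
            rw [Function.update_of_ne (ne_of_mem_erase hu)]] at a3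
          simp only [Function.update_self] at a3
          omega
        · rw [Multiset.count_eq_zero.2 hR, zero_mul, zero_mul]
      rw [sum_congr rfl fun x hx => sum_congr rfl (e4 x hx), e3] at e1
      rw [← hk] at e2
      have hl : cnt Γ c T t ≠ 0 ∨ cnt Γ c' T t ≠ 0 →
          ∑ x ∈ T, (F.del (t x)).card < ∑ x, (F.del (c x)).card :=
        fun h0 => h0.elim (trade_lt F hT) fun h0 => hk ▸ trade_lt F hT' h0
      by_contra hne
      obtain ⟨m, hm⟩ := Nat.exists_eq_add_of_lt (hl (by omega))
      rw [hm, add_assoc _ m 1, add_mul] at e1 e2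
      have e5 : (m + 1) * cnt Γ c T t = (m + 1) * cnt Γ c' T t := by omega
      exact hne (Nat.eq_of_mul_eq_mul_left m.succ_pos e5)
  exact key (∑ x, F.sz (c x) + ∑ x, F.sz (c' x) + 1) t (by omega)

theorem trade_index {c : K → C} {L : Type} [Fintype L] (b : L → K) (d : L → C)
    (hb : ∀ x, (univ.filter fun v => b v = x).val.map d = F.del (c x)) (φ : (K → C) → ℕ) :
    F.dsum c φ = ∑ v, φ (Function.update c (b v) (d v)) := by
  rw [Fo.dsum, ← sum_fiberwise univ b]
  refine sum_congr rfl fun x _ => ?_
  rw [← hb, Multiset.map_map]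
  exact sum_congr rfl fun v hv => by rw [(mem_filter.1 hv).2]; rfl

theorem Fo.hyp_of_index {Γ : Subgroup (Equiv.Perm K)} {c c' : K → C} {L : Type} [Fintype L]
    (b b' : L → K) (d d' : L → C)
    (hb : ∀ x, (univ.filter fun v => b v = x).val.map d = F.del (c x))
    (hb' : ∀ x, (univ.filter fun v => b' v = x).val.map d' = F.del (c' x))
    (h : ∀ v, ∃ g ∈ Γ, Function.update c (b v) (d v) = Function.update c' (b' v) (d' v) ∘ g) :
    F.Hyp Γ c c' ∧ ∑ x, (F.del (c x)).card = Fintype.card L := by
  refine ⟨fun φ hφ => ?_, ?_⟩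
  · rw [trade_index F b d hb, trade_index F b' d' hb']
    refine sum_congr rfl fun v _ => ?_
    obtain ⟨g, hg, e⟩ := h v
    rw [e, hφ g hg]
  · simpa [Fo.dsum] using trade_index F b d hb fun _ => 1

end Pool.Agent.Lib.MP_528c50_co.Cs
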