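import Pool.Agent.Lib.MP_528c50_co.Cs.Ms
import Pool.Agent.Lib.MP_528c50_co.Cs.Trade
import Pool.Agent.Lib.MP_528c50_co.Cs.Trace

/-! Colourings with many cards are determined by their decks. -/

namespace Pool.Agent.Lib.MP_528c50_co.Cs

open Finset Function

variable {C K : Type} [Fintype K] (F : Fo C) {Γ : Subgroup (Equiv.Perm K)} {c c' : K → C}

/-- The multiset of the nonempty colours. -/
noncomputable def Fo.ntv (c : K → C) : Multiset C := ∑ x, F.nz (c x)

theorem Fo.core_nz {t : C} (h : t ≠ F.o) : F.nz t = {t} := if_neg h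

theorem Fo.core_nz_o : F.nz F.o = 0 := if_pos rfl

theorem Fo.core_mem_nz {s t : C} : s ∈ F.nz t ↔ s ≠ F.o ∧ t = s := by
  by_cases h : t = F.o
  · subst h
    rw [F.core_nz_o]
    simp only [Multiset.notMem_zero, false_iff]
    exact fun a => a.1 a.2.symm
  · rw [F.core_nz h, Multiset.mem_singleton]
    exact ⟨fun a => ⟨a ▸ h, a.symm⟩, fun a => a.2.symm⟩

theorem Fo.core_nz_inj {s t : C} (h : F.nz s = F.nz t) : s = t := by
  by_cases a : s = F.o
  · by_contra b
    have : t ∈ F.nz s := h ▸ F.core_mem_nz.2 ⟨fun e => b (a.trans e.symm), rfl⟩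
    exact b (F.core_mem_nz.1 this).2
  · have : s ∈ F.nz t := h ▸ F.core_mem_nz.2 ⟨a, rfl⟩
    exact (F.core_mem_nz.1 this).2.symm

theorem Fo.core_mem_ntv {t : C} : t ∈ F.ntv c ↔ t ≠ F.o ∧ ∃ x, c x = t := by
  simp [Fo.ntv, Multiset.mem_sum, F.core_mem_nz]

theorem Fo.core_ntv_comp (y : K → C) (g : Equiv.Perm K) : F.ntv (y ∘ g) = F.ntv y :=
  Equiv.sum_comp g fun x => F.nz (y x)

theorem Fo.core_sum (f : C → ℕ) (h : f F.o = 0) (c : K → C) :
    ∑ x, f (c x) = ((F.ntv c).map f).sum := by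
  unfold Fo.ntv
  rw [← Multiset.coe_mapAddMonoidHom, map_sum, Multiset.sum_sum]
  refine sum_congr rfl fun x _ => ?_
  rw [Multiset.coe_mapAddMonoidHom]
  by_cases a : c x = F.o
  · rw [a, F.core_nz_o, h]
    rfl
  · rw [F.core_nz a]
    simp

theorem Fo.core_card (c : K → C) : (F.ntv c).card = (F.sup c).card := by
  classical
  unfold Fo.ntv Fo.sup
  rw [Multiset.card_sum, card_filter]
  refine sum_congr rfl fun x _ => ?_
  by_cases a : c x = F.o
  · rw [a, F.core_nz_o]
    simp
  · rw [F.core_nz a]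
    simp [a]

theorem Fo.core_ne_o {R D : C} (h : D ∈ F.del R) : R ≠ F.o := fun e => by
  rw [e, F.del_o] at h
  exact Multiset.notMem_zero _ h

variable [DecidableEq K]

theorem Fo.core_ntv_upd {x : K} (h : c x ≠ F.o) (s : C) :
    F.ntv (update c x s) + {c x} = F.ntv c + F.nz s := by
  unfold Fo.ntv
  rw [← add_sum_erase _ _ (mem_univ x), ← add_sum_erase _ (fun y => F.nz (c y)) (mem_univ x),
    update_self, F.core_nz h,
    sum_congr rfl fun y hy => congrArg F.nz (update_of_ne (ne_of_mem_erase hy) s c)]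
  abel

theorem Fo.core_match (h : F.Hyp Γ c c') {x : K} {D : C} (hD : D ∈ F.del (c x)) :
    ∃ x' D', D' ∈ F.del (c' x') ∧ ∃ g ∈ Γ, update c x D = update c' x' D' ∘ g := by
  classical
  have e := h (fun y => if ∃ g ∈ Γ, update c x D = y ∘ g then 1 else 0) fun g hg y => by
    refine if_congr ⟨?_, ?_⟩ rfl rfl
    · rintro ⟨a, ha, e⟩
      exact ⟨g * a, Γ.mul_mem hg ha, e⟩
    · rintro ⟨a, ha, e⟩
      exact ⟨g⁻¹ * a, Γ.mul_mem (Γ.inv_mem hg) ha, e.trans (funext fun z => by simp)⟩
  by_contra hn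
  have e0 : F.dsum c' (fun y => if ∃ g ∈ Γ, update c x D = y ∘ g then 1 else 0) = 0 :=
    sum_eq_zero fun x' _ => Multiset.sum_eq_zero fun n hn' => by
      obtain ⟨s, hs, rfl⟩ := Multiset.mem_map.1 hn'
      exact if_neg fun a => hn ⟨x', s, hs, a⟩
  rw [e0] at e
  have e1 := sum_eq_zero_iff.1 e x (mem_univ x)
  have e2 := Multiset.sum_eq_zero_iff.1 e1 _ (Multiset.mem_map_of_mem _ hD)
  exact one_ne_zero ((if_pos ⟨1, Γ.one_mem, rfl⟩).symm.trans e2)

theorem Fo.core_eq {x x' : K} {D D' : C} (hD : D ∈ F.del (c x)) (hD' : D' ∈ F.del (c' x'))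
    {g : Equiv.Perm K} (e : update c x D = update c' x' D' ∘ g) :
    F.Quad (F.ntv c) (F.ntv c') (c x) D (c' x') D' := by
  have a := F.core_ntv_upd (F.core_ne_o hD) D
  have b := F.core_ntv_upd (F.core_ne_o hD') D'
  rw [e, F.core_ntv_comp] at a
  refine ⟨F.core_mem_ntv.2 ⟨F.core_ne_o hD, x, rfl⟩, hD,
    F.core_mem_ntv.2 ⟨F.core_ne_o hD', x', rfl⟩, hD', ?_⟩
  rw [← a, ← b]
  abel

theorem Fo.core_single [DecidableEq C] {A : C} (h : F.ntv c = {A}) (t : C) :
    F.dsum c (fun y => if F.ntv y = F.nz t then 1 else 0) = (F.del A).count t := by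
  have e := F.core_sum (fun R => (F.del R).count t) (by rw [F.del_o]; rfl) c
  rw [h, Multiset.map_singleton, Multiset.sum_singleton] at e
  rw [← e]
  refine sum_congr rfl fun x _ => ?_
  by_cases a : c x = F.o
  · rw [a, F.del_o]
    rfl
  · have b : c x = A := Multiset.mem_singleton.1 (h ▸ F.core_mem_ntv.2 ⟨a, x, rfl⟩)
    have d : ∀ s, F.ntv (update c x s) = F.nz s := fun s => by
      have := F.core_ntv_upd a s
      rw [h, b, add_comm] at this
      exact add_left_cancel this
    simp only [d]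
    generalize F.del (c x) = m
    induction m using Multiset.induction_on with
    | empty => rfl
    | cons s m ih =>
      rw [Multiset.map_cons, Multiset.sum_cons, ih, Multiset.count_cons, add_comm]
      congr 1
      exact if_congr ⟨fun z => (F.core_nz_inj z).symm, fun z => by rw [z]⟩ rfl rfl

omit [DecidableEq K] in
theorem Fo.core_le (c : K → C) : ∑ x, (F.del (c x)).card ≤ ((F.ntv c).map F.sz).sum := by
  rw [← F.core_sum F.sz F.sz_o]
  exact sum_le_sum fun x _ => F.card_le _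

theorem Fo.core_ntv_eq (hi : Injective F.del) (h : F.Hyp Γ c c')
    (hk : 2 < ∑ x, (F.del (c x)).card) : F.ntv c = F.ntv c' := by
  classical
  have h' : F.Hyp Γ c' c := fun φ a => (h φ a).symm
  have hle := F.core_le c
  rcases F.ms (M := F.ntv c) (M' := F.ntv c') (fun a => (F.core_mem_ntv.1 a).1 rfl)
    (fun a => (F.core_mem_ntv.1 a).1 rfl) (fun R hR D hD => by
      obtain ⟨-, x, rfl⟩ := F.core_mem_ntv.1 hR
      obtain ⟨x', D', hD', g, -, e⟩ := F.core_match h hD
      exact ⟨_, _, F.core_eq hD hD' e⟩) (fun R hR D hD => by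
      obtain ⟨-, x, rfl⟩ := F.core_mem_ntv.1 hR
      obtain ⟨x', D', hD', g, -, e⟩ := F.core_match h' hD
      obtain ⟨a1, a2, a3, a4, a5⟩ := F.core_eq hD hD' e
      exact ⟨_, _, a3, a4, a1, a2, a5.symm⟩) with a | ⟨A, A', a, a', -⟩ | a | a
  · exact a
  · rw [a, a']
    refine congrArg _ (hi (Multiset.ext.2 fun t => ?_))
    rw [← F.core_single a t, ← F.core_single a' t]
    exact h _ fun g _ y => by rw [F.core_ntv_comp]
  · obtain ⟨A, B, B', a, -, b, -⟩ := a
    rw [a] at hle
    simp at hle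
    omega
  · obtain ⟨A, B, B', -, a, -, b, b'⟩ := a
    rw [a] at hle
    simp at hle
    omega

theorem Fo.core_swap (h : F.Hyp Γ c c') (hM : F.ntv c = F.ntv c')
    (hn : ¬ ∃ g ∈ Γ, c = c' ∘ g) {x : K} {D : C} (hD : D ∈ F.del (c x)) : ∃ y, c y = D := by
  obtain ⟨x', D', hD', g, hg, e⟩ := F.core_match h hD
  have q := (F.core_eq hD hD' e).2.2.2.2
  rw [hM, add_assoc, add_assoc] at q
  have q2 := add_left_cancel q
  have s1 := F.sz_del _ _ hD
  have r : c x = c' x' := by
    have m : c x ∈ F.nz D + {c' x'} :=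
      q2 ▸ Multiset.mem_add.2 (Or.inr (Multiset.mem_singleton_self _))
    rcases Multiset.mem_add.1 m with m | m
    · rw [(F.core_mem_nz.1 m).2] at s1
      omega
    · exact Multiset.mem_singleton.1 m
  rw [r] at q2
  have d : D = D' := F.core_nz_inj (add_right_cancel q2)
  by_cases hy : g.symm x' = x
  · refine (hn ⟨g, hg, funext fun z => ?_⟩).elim
    have gx : g x = x' := by rw [← hy]; simp
    by_cases hz : z = x
    · rw [hz, comp_apply, gx, r]
    · have e2 := congrFun e z
      rwa [update_of_ne hz, comp_apply,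
        update_of_ne fun a => hz (g.injective (a.trans gx.symm))] at e2
  · have e2 := congrFun e (g.symm x')
    rw [update_of_ne hy, comp_apply, Equiv.apply_symm_apply, update_self] at e2
    exact ⟨_, e2.trans d.symm⟩

omit [DecidableEq K] in
theorem Fo.core_size (h : ∀ x, ∀ D ∈ F.del (c x), ∃ y, c y = D) (x : K) :
    F.sz (c x) ≤ (F.sup c).card := by
  have key : ∀ i j x, F.sz (c x) = j + i → ∃ y, F.sz (c y) = j := by
    intro i
    induction i with
    | zero => exact fun j x e => ⟨x, e⟩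
    | succ i ih =>
      intro j x e
      obtain ⟨D, hD⟩ := F.exists_del (t := c x) fun a => by
        rw [a, F.sz_o] at e
        omega
      obtain ⟨y, hy⟩ := h x D hD
      have := F.sz_del _ _ hD
      exact ih j y (by rw [hy]; omega)
  have sub : Icc 1 (F.sz (c x)) ⊆ (F.sup c).image fun y => F.sz (c y) := fun j hj => by
    obtain ⟨j1, j2⟩ := mem_Icc.1 hj
    obtain ⟨y, hy⟩ := key (F.sz (c x) - j) j x (by omega)
    refine mem_image.2 ⟨y, F.mem_sup.2 fun a => ?_, hy⟩
    rw [a, F.sz_o] at hy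
    omega
  simpa using (card_le_card sub).trans card_image_le

theorem Fo.main (hi : Injective F.del) (h : F.Hyp Γ c c') {l : ℕ} (hl : Irr Γ l)
    (hk : (4 * l * (Nat.log 2 l + 4) + 2) ^ 2 ≤ ∑ x, (F.del (c x)).card) :
    ∃ g ∈ Γ, c = c' ∘ g := by
  classical
  have hM := F.core_ntv_eq hi h (by nlinarith [Nat.zero_le (4 * l * (Nat.log 2 l + 4))])
  have hN : (F.sup c).card = (F.sup c').card := by rw [← F.core_card, hM, F.core_card]
  by_contra hn
  have z : cnt Γ c' (F.sup c) c = 0 := by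
    refine card_eq_zero.2 (filter_eq_empty_iff.2 fun g _ hg => hn ⟨g, hg.1, funext fun x => ?_⟩)
    by_cases a : x ∈ F.sup c
    · exact (hg.2 x a).symm
    · have im : (F.sup c).image g = F.sup c' := eq_of_subset_of_card_le (fun y hy => by
        obtain ⟨u, hu, rfl⟩ := mem_image.1 hy
        exact F.mem_sup.2 (hg.2 u hu ▸ F.mem_sup.1 hu))
        (by rw [card_image_of_injective _ g.injective, hN])
      have b : g x ∉ F.sup c' := fun b => by
        obtain ⟨u, hu, e⟩ := mem_image.1 (im ▸ b)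
        exact a (g.injective e ▸ hu)
      rw [F.mem_sup, not_not] at a b
      exact a.trans b.symm
  have p : cnt Γ c (F.sup c) c ≠ 0 :=
    card_ne_zero.2 ⟨1, mem_filter.2 ⟨mem_univ _, Γ.one_mem, fun _ _ => rfl⟩⟩
  have tr := all_traces (F.sup c) c c' (fun T hT => F.cnt_eq h (card_lt_card hT)
    (hN ▸ card_lt_card hT) c) (z ▸ p)
  have t1 := trace_card hl (F.sup c) (F.sup c) c c
    (fun x hx y e => F.mem_sup.2 (e ▸ F.mem_sup.1 hx))
    ((F.sup c).powerset.filter (IsTr Γ (F.sup c) c c)) fun X hX => (mem_filter.1 hX).2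
  have t2 := trace_card hl (F.sup c) (F.sup c') c c'
    (fun x hx y e => F.mem_sup.2 (e ▸ F.mem_sup.1 hx))
    ((F.sup c).powerset.filter (IsTr Γ (F.sup c) c c')) fun X hX => (mem_filter.1 hX).2
  have t3 : (F.sup c).powerset ⊆ (F.sup c).powerset.filter (IsTr Γ (F.sup c) c c) ∪
      (F.sup c).powerset.filter (IsTr Γ (F.sup c) c c') := fun X hX =>
    mem_union.2 ((tr X (mem_powerset.1 hX)).imp (fun a => mem_filter.2 ⟨hX, a⟩)
      fun a => mem_filter.2 ⟨hX, a⟩)
  have t4 := (card_le_card t3).trans (card_union_le _ _)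
  rw [card_powerset] at t4
  rw [← hN] at t2
  have nb := num_bound (l := l) (N := (F.sup c).card) (by omega)
  have sz := F.core_size fun x D hD => F.core_swap h hM hn (x := x) hD
  have k1 : ∑ x, (F.del (c x)).card = ∑ x ∈ F.sup c, (F.del (c x)).card :=
    (sum_subset (subset_univ _) fun x _ a => by
      rw [F.mem_sup, not_not] at a
      rw [a, F.del_o]
      rfl).symm
  have k2 : ∑ x ∈ F.sup c, (F.del (c x)).card ≤ (F.sup c).card * (F.sup c).card :=
    sum_le_card_nsmul _ _ _ fun x _ => (F.card_le _).trans (sz x)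
  nlinarith

end Pool.Agent.Lib.MP_528c50_co.Cs
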