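import Mathlib

/-! Irredundant sequences of automorphisms of a connected graph of minimum degree two are bounded
linearly in the cyclomatic number. -/

namespace Pool.Agent.Lib.MP_528c50_co.Cs

open Finset

variable {V : Type} [Fintype V] (G : SimpleGraph V) [DecidableRel G.Adj]

/-- Every dart is determined by a dart at the root or at a vertex of degree at least three. -/
theorem cyc_det (hconn : G.Connected) (x₀ v : V) : ∀ w, G.Adj v w →
    ∃ d : V × V, (d.1 = x₀ ∨ 3 ≤ G.degree d.1) ∧ G.Adj d.1 d.2 ∧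
      ∀ g : G ≃g G, g d.1 = d.1 → g d.2 = d.2 → g v = v ∧ g w = w := by
  classical
  have hr := (SimpleGraph.reachable_iff_reflTransGen x₀ v).1 (hconn.preconnected x₀ v)
  induction hr with
  | refl => exact fun w hw => ⟨(x₀, w), Or.inl rfl, hw, fun g h1 h2 => ⟨h1, h2⟩⟩
  | @tail u v _ huv ih =>
    intro w hw
    by_cases h3 : 3 ≤ G.degree v
    · exact ⟨(v, w), Or.inr h3, hw, fun g h1 h2 => ⟨h1, h2⟩⟩
    · obtain ⟨d, d1, d2, d3⟩ := ih v huv
      refine ⟨d, d1, d2, fun g h1 h2 => ?_⟩
      obtain ⟨hu, hv⟩ := d3 g h1 h2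
      refine ⟨hv, ?_⟩
      by_contra hne
      have hwu : w ≠ u := fun e => hne (by rw [e, hu])
      have hgu : g w ≠ u := fun e => hwu (g.injective (e.trans hu.symm))
      have hadj : G.Adj v (g w) := by
        have := g.map_adj_iff.2 hw
        rwa [hv] at this
      have hsub : ({u, w, g w} : Finset V) ⊆ G.neighborFinset v := by
        intro y hy
        simp only [mem_insert, mem_singleton] at hy
        rw [SimpleGraph.mem_neighborFinset]
        rcases hy with rfl | rfl | rfl
        exacts [huv.symm, hw, hadj]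
      have hc := card_le_card hsub
      rw [card_eq_three.2 ⟨u, w, g w, hwu.symm, hgu.symm, Ne.symm hne, rfl⟩,
        SimpleGraph.card_neighborFinset_eq_degree] at hc
      exact h3 hc

open Classical in
theorem cyc_card (hdeg : ∀ v, 2 ≤ G.degree v) (c : ℕ)
    (hc : G.edgeFinset.card + 1 ≤ Fintype.card V + c) (x₀ : V) :
    (univ.filter fun d : V × V => (d.1 = x₀ ∨ 3 ≤ G.degree d.1) ∧ G.Adj d.1 d.2).card + 4
      ≤ 6 * c := by
  have h1 : (univ.filter fun d : V × V => (d.1 = x₀ ∨ 3 ≤ G.degree d.1) ∧ G.Adj d.1 d.2).card =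
      ∑ v, if v = x₀ ∨ 3 ≤ G.degree v then G.degree v else 0 := by
    rw [card_filter, Fintype.sum_prod_type]
    refine sum_congr rfl fun v _ => ?_
    by_cases h : v = x₀ ∨ 3 ≤ G.degree v
    · simp only [h, true_and, if_true]
      rw [← card_filter, ← SimpleGraph.neighborFinset_eq_filter,
        SimpleGraph.card_neighborFinset_eq_degree]
    · simp [h]
  have h2 : ∑ v, ((if v = x₀ ∨ 3 ≤ G.degree v then G.degree v else 0) + 6) ≤
      ∑ v, (3 * G.degree v + if v = x₀ then 2 else 0) := by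
    refine sum_le_sum fun v _ => ?_
    have := hdeg v
    by_cases h : v = x₀
    · rw [if_pos (Or.inl h), if_pos h]
      omega
    · simp only [h, false_or, if_false]
      split_ifs <;> omega
  rw [sum_add_distrib, sum_add_distrib, ← mul_sum, SimpleGraph.sum_degrees_eq_twice_card_edges,
    ← h1] at h2
  simp only [sum_const, card_univ, smul_eq_mul, sum_ite_eq', mem_univ, if_true] at h2
  omega

theorem cyc_irr (hconn : G.Connected) (hdeg : ∀ v, 2 ≤ G.degree v) (c : ℕ)
    (hc : G.edgeFinset.card + 1 ≤ Fintype.card V + c) (r : ℕ) (x : Fin r → V)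
    (hx : ∀ i, ∃ g : G ≃g G, (∀ j < i, g (x j) = x j) ∧ g (x i) ≠ x i) : r + 4 ≤ 6 * c := by
  classical
  rcases Nat.eq_zero_or_pos r with rfl | hr
  · obtain ⟨x₀⟩ := hconn.nonempty
    have := cyc_card G hdeg c hc x₀
    omega
  have hD := cyc_card G hdeg c hc (x ⟨0, hr⟩)
  set D := univ.filter fun d : V × V => (d.1 = x ⟨0, hr⟩ ∨ 3 ≤ G.degree d.1) ∧ G.Adj d.1 d.2
    with hDdef
  let ρ : V × V → ℕ := fun d => Fintype.equivFin (V × V) d
  have hρ : Function.Injective ρ := fun a b h => (Fintype.equivFin (V × V)).injective (Fin.ext h)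
  let H : ℕ → (G ≃g G) → Prop := fun i g => ∀ j : Fin r, j.val < i → g (x j) = x j
  let M : ℕ → Finset (V × V) := fun i => D.filter fun d => ∀ g, H i g → ρ d ≤ ρ (g d.1, g d.2)
  have hinv : ∀ (g : G ≃g G), g (x ⟨0, hr⟩) = x ⟨0, hr⟩ → ∀ d ∈ D, (g d.1, g d.2) ∈ D := by
    intro g hg d hd
    rw [hDdef, mem_filter] at hd ⊢
    refine ⟨mem_univ _, hd.2.1.imp (fun e => by rw [e, hg]) fun e => ?_,
      g.map_adj_iff.2 hd.2.2⟩
    rwa [g.degree_eq]
  have hmin : ∀ i, 1 ≤ i → ∀ d ∈ D, ∃ g, H i g ∧ (g d.1, g d.2) ∈ M i := by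
    intro i hi d hd
    obtain ⟨g, hg, hm⟩ := (measure fun g : G ≃g G => ρ (g d.1, g d.2)).wf.has_min {g | H i g}
      ⟨RelIso.refl _, fun _ _ => rfl⟩
    refine ⟨g, hg, mem_filter.2 ⟨hinv g (hg _ hi) d hd, fun g' hg' => ?_⟩⟩
    exact not_lt.1 (hm (g.trans g') fun j hj => by
      rw [RelIso.trans_apply, hg j hj, hg' j hj])
  have main : ∀ i, i < r → i + 1 ≤ (M (i + 1)).card := by
    intro i
    induction i with
    | zero =>
      intro _
      obtain ⟨w, hw⟩ := (G.degree_pos_iff_exists_adj (x ⟨0, hr⟩)).1 (by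
        have := hdeg (x ⟨0, hr⟩)
        omega)
      obtain ⟨g, -, hg⟩ := hmin 1 le_rfl (x ⟨0, hr⟩, w)
        (mem_filter.2 ⟨mem_univ _, Or.inl rfl, hw⟩)
      exact card_pos.2 ⟨_, hg⟩
    | succ i ih =>
      intro hi
      refine Nat.succ_le_of_lt ((ih (by omega)).trans_lt (card_lt_card ⟨fun d hd => ?_, ?_⟩))
      · exact mem_filter.2 ⟨(mem_filter.1 hd).1, fun g hg =>
          (mem_filter.1 hd).2 g fun j hj => hg j (by omega)⟩
      · intro hsub
        obtain ⟨g, hg, hne⟩ := hx ⟨i + 1, hi⟩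
        have hg' : H (i + 1) g := fun j hj => hg j hj
        obtain ⟨w, hw⟩ := (G.degree_pos_iff_exists_adj (x ⟨i + 1, hi⟩)).1 (by
          have := hdeg (x ⟨i + 1, hi⟩)
          omega)
        obtain ⟨d, d1, d2, d3⟩ := cyc_det G hconn (x ⟨0, hr⟩) _ w hw
        have hd : d ∈ D := mem_filter.2 ⟨mem_univ _, d1, d2⟩
        obtain ⟨a, ha, ha'⟩ := hmin (i + 1 + 1) (by omega) d hd
        obtain ⟨b, hb, hb'⟩ := hmin (i + 1 + 1) (by omega) _
          (hinv g (hg' _ (Nat.succ_pos i)) d hd)
        have hs : ∀ f : G ≃g G, H (i + 1) f → H (i + 1) f.symm := fun f hf j hj => by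
          rw [RelIso.symm_apply_eq, hf j hj]
        have ha1 : H (i + 1) a := fun j hj => ha j (by omega)
        have hb1 : H (i + 1) b := fun j hj => hb j (by omega)
        have hq : H (i + 1) ((a.symm.trans g).trans b) := fun j hj => by
          rw [RelIso.trans_apply, RelIso.trans_apply, hs a ha1 j hj, hg' j hj, hb1 j hj]
        have l1 := (mem_filter.1 (hsub ha')).2 _ hq
        have l2 := (mem_filter.1 (hsub hb')).2 _ (hs _ hq)
        simp only [RelIso.trans_apply, RelIso.symm_apply_apply] at l1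
        have e1 : ∀ y, ((a.symm.trans g).trans b).symm (b (g y)) = a y := fun y => by
          rw [RelIso.symm_apply_eq]
          simp
        simp only [e1] at l2
        have e2 := hρ (le_antisymm l1 l2)
        have e3 := (d3 ((g.trans b).trans a.symm)
          (by rw [RelIso.trans_apply, RelIso.trans_apply, RelIso.symm_apply_eq]
              exact (congrArg Prod.fst e2).symm)
          (by rw [RelIso.trans_apply, RelIso.trans_apply, RelIso.symm_apply_eq]
              exact (congrArg Prod.snd e2).symm)).1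
        rw [RelIso.trans_apply, RelIso.trans_apply, RelIso.symm_apply_eq,
          ha ⟨i + 1, hi⟩ (Nat.lt_succ_self _)] at e3
        exact hne (b.injective (e3.trans (hb ⟨i + 1, hi⟩ (Nat.lt_succ_self _)).symm))
  have h1 := main (r - 1) (by omega)
  have h2 : (M (r - 1 + 1)).card ≤ D.card := card_filter_le _ _
  omega

omit [DecidableRel G.Adj] in
/-- The same with two neighbours in place of the degree and with `Set.ncard`. -/
theorem cyc_irr' (hconn : G.Connected) (hdeg : ∀ v, ∃ a b, a ≠ b ∧ G.Adj v a ∧ G.Adj v b) (c : ℕ)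
    (hc : G.edgeSet.ncard + 1 ≤ Fintype.card V + c) (r : ℕ) (x : Fin r → V)
    (hx : ∀ i, ∃ g : G ≃g G, (∀ j < i, g (x j) = x j) ∧ g (x i) ≠ x i) : r + 4 ≤ 6 * c := by
  classical
  refine cyc_irr G hconn (fun v => ?_) c (by rwa [Set.ncard_eq_toFinset_card'] at hc) r x hx
  obtain ⟨a, b, hab, ha, hb⟩ := hdeg v
  rw [← SimpleGraph.card_neighborFinset_eq_degree]
  exact one_lt_card.2 ⟨a, by simpa using ha, b, by simpa using hb, hab⟩

end Pool.Agent.Lib.MP_528c50_co.Cs
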