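import Pool.Agent.Lib.MP_528c50_co.Cs.Graph
import Pool.Agent.Lib.MP_528c50_co.Cs.Cyc

/-! The core of a connected graph is connected and has no larger cyclomatic number. -/

namespace Pool.Agent.Lib.MP_528c50_co.Cs

open Finset Relation

variable {V : Type} {G : SimpleGraph V}

theorem cyccore_joined (hconn : G.Connected) (hne : (core G).Nonempty) (v : V) :
    ∃ x ∈ core G, G.Reachable v x :=
  let ⟨x, hx⟩ := hne
  ⟨x, hx, hconn.preconnected v x⟩

theorem cyccore_two (v : core G) : ∃ a b, a ≠ b ∧ (G.induce (core G)).Adj v a ∧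
    (G.induce (core G)).Adj v b := by
  obtain ⟨S, hv, hS⟩ := v.2
  obtain ⟨a, ha, b, hb, hab, h1, h2⟩ := hS v hv
  exact ⟨⟨a, S, ha, hS⟩, ⟨b, S, hb, hS⟩, fun e => hab (congrArg Subtype.val e), h1, h2⟩

theorem cyccore_connected (hconn : G.Connected) (hne : (core G).Nonempty) :
    (G.induce (core G)).Connected := by
  obtain ⟨P, hP⟩ := exists_skel (cyccore_joined hconn hne)
  have hstay : ∀ u x, u ∈ core G → ReflTransGen P u x → x = u := by
    intro u x hu h
    rcases h.cases_head with e | ⟨w, hw, -⟩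
    · exact e.symm
    · exact absurd hu (hP.out u w hw)
  have : Nonempty (core G) := hne.to_subtype
  refine ⟨fun a b => ?_⟩
  have main : ∀ u, ReflTransGen G.Adj a.1 u → ∀ x : core G, ReflTransGen P u x →
      (G.induce (core G)).Reachable a x := by
    intro u hu
    induction hu with
    | refl =>
      intro x hx
      rw [Subtype.ext (hstay _ _ a.2 hx)]
    | @tail u w _ huw ih =>
      intro x hx
      rcases (hP.adj u w).1 huw with ⟨h1, h2, h3⟩ | h | h
      · have e : x.1 = w := hstay _ _ h2 hx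
        exact (ih ⟨u, h1⟩ .refl).trans
          (SimpleGraph.Adj.reachable (show G.Adj u x.1 from e ▸ h3))
      · exact ih x (.head h hx)
      · rcases hx.cases_head with e | ⟨w', hw', hx'⟩
        · exact absurd (e ▸ x.2) (hP.out w u h)
        · exact ih x (hP.par.uniq _ _ _ hw' h ▸ hx')
  exact main b ((SimpleGraph.reachable_iff_reflTransGen _ _).1 (hconn.preconnected _ _)) b .refl

theorem cyccore_edges [Finite V] (hc : ∀ v, ∃ x ∈ core G, G.Reachable v x) :
    (G.induce (core G)).edgeSet.ncard + Nat.card V ≤ G.edgeSet.ncard + Nat.card (core G) := by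
  obtain ⟨P, hP⟩ := exists_skel hc
  choose par hpar using fun u : ((core G)ᶜ : Set V) => hP.ex u.1 u.2
  obtain ⟨dp, hdp⟩ := hP.par.rk
  let f : (G.induce (core G)).edgeSet ⊕ ((core G)ᶜ : Set V) → G.edgeSet :=
    Sum.elim (SimpleGraph.Embedding.induce (G := G) (core G)).mapEdgeSet
      fun u => ⟨s(u.1, par u), (hP.adj _ _).2 (Or.inr (Or.inl (hpar u)))⟩
  have hmix : ∀ (e : (G.induce (core G)).edgeSet) (u : ((core G)ᶜ : Set V)),
      f (Sum.inl e) ≠ f (Sum.inr u) := by
    intro e u h
    have h1 : Sym2.map Subtype.val e.1 = s(u.1, par u) := congrArg Subtype.val h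
    have h2 : u.1 ∈ Sym2.map Subtype.val e.1 := h1 ▸ Sym2.mem_mk_left _ _
    obtain ⟨y, -, hy⟩ := Sym2.mem_map.1 h2
    exact u.2 (hy ▸ y.2)
  have hf : Function.Injective f := by
    rintro (e | u) (e' | u') h
    · exact congrArg _ ((SimpleGraph.Embedding.induce (G := G) (core G)).mapEdgeSet.injective h)
    · exact absurd h (hmix e u')
    · exact absurd h.symm (hmix e' u)
    · have h1 : s(u.1, par u) = s(u'.1, par u') := congrArg Subtype.val h
      rcases Sym2.eq_iff.1 h1 with ⟨h2, -⟩ | ⟨h2, h3⟩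
      · exact congrArg _ (Subtype.ext h2)
      · have h4 := hdp _ _ (hpar u)
        have h5 := hdp _ _ (hpar u')
        rw [h3] at h4
        rw [← h2] at h5
        omega
  have h1 := Nat.card_le_card_of_injective f hf
  rw [Nat.card_sum, Nat.card_coe_set_eq, Nat.card_coe_set_eq, Nat.card_coe_set_eq] at h1
  have h2 := Set.ncard_add_ncard_compl (core G)
  rw [Nat.card_coe_set_eq]
  omega

/-- Irredundant sequences for the automorphisms of the core of a connected graph. -/
theorem cyccore_irr [Finite V] (hconn : G.Connected) (c : ℕ)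
    (hc : G.edgeSet.ncard + 1 ≤ Nat.card V + c) (r : ℕ) (x : Fin r → core G)
    (hx : ∀ i, ∃ g : G.induce (core G) ≃g G.induce (core G),
      (∀ j < i, g (x j) = x j) ∧ g (x i) ≠ x i) : r ≤ 6 * c - 4 := by
  rcases Nat.eq_zero_or_pos r with rfl | hr
  · exact Nat.zero_le _
  have hne : (core G).Nonempty := ⟨_, (x ⟨0, hr⟩).2⟩
  have := Fintype.ofFinite (core G)
  have h1 := cyccore_edges (cyccore_joined hconn hne)
  have h2 := cyc_irr' (G.induce (core G)) (cyccore_connected hconn hne) cyccore_two c
    (by rw [← Nat.card_eq_fintype_card]; omega) r x hx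
  omega

end Pool.Agent.Lib.MP_528c50_co.Cs
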