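import Pool.Agent.Lib.MP_528c50_co.Cs.Main
import Pool.Agent.Lib.MP_528c50_co.Cs.CycCore

/-! Connected graphs of bounded cyclomatic number. -/

namespace Pool.Agent.Lib.MP_528c50_co.Cs

variable {V V' : Type} {G : SimpleGraph V} {H : SimpleGraph V'}

theorem core_nonempty (h : ¬ G.IsAcyclic) : (core G).Nonempty := by
  obtain ⟨v, p, hp⟩ : ∃ (v : V) (p : G.Walk v v), p.IsCycle := by
    by_contra c
    exact h fun v p hp => c ⟨v, p, hp⟩
  refine ⟨v, p.toSubgraph.verts, p.start_mem_verts_toSubgraph, fun u hu => ?_⟩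
  obtain ⟨a, b, hab, e⟩ := Set.ncard_eq_two.1
    (hp.ncard_neighborSet_toSubgraph_eq_two (p.mem_verts_toSubgraph.1 hu))
  have ha : p.toSubgraph.Adj u a := by
    rw [← SimpleGraph.Subgraph.mem_neighborSet, e]
    simp
  have hb : p.toSubgraph.Adj u b := by
    rw [← SimpleGraph.Subgraph.mem_neighborSet, e]
    simp
  exact ⟨a, ha.snd_mem, b, hb.snd_mem, hab, ha.adj_sub, hb.adj_sub⟩

theorem cyc_main [Finite V] [Finite V'] (c : ℕ) (hc : G.Connected) (hn : ¬ G.IsAcyclic)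
    (he : G.edgeSet.ncard + 1 ≤ Nat.card V + c)
    (hk : (4 * (6 * c - 4) * (Nat.log 2 (6 * c - 4) + 4) + 2) ^ 2 ≤ {v | ∃! w, G.Adj v w}.ncard)
    (σ : {v // ∃! w, G.Adj v w} ≃ {v // ∃! w, H.Adj v w})
    (hσ : ∀ v, Nonempty (G.induce {v.1}ᶜ ≃g H.induce {(σ v).1}ᶜ)) : Nonempty (G ≃g H) :=
  main (6 * c - 4) (cyccore_joined hc (core_nonempty hn)) (cyccore_irr hc c he) hk σ hσ

end Pool.Agent.Lib.MP_528c50_co.Cs
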