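import Mathlib

/-! The core of a graph; abstract colours with leaf deletion; forests given by a parent relation. -/

namespace Pool.Agent.Lib.MP_528c50_co.Cs

open Finset Relation

/-- The 2-core: the union of all vertex sets in which every vertex has two neighbours. -/
def core {V : Type} (G : SimpleGraph V) : Set V :=
  {v | ∃ S : Set V, v ∈ S ∧ ∀ u ∈ S, ∃ a ∈ S, ∃ b ∈ S, a ≠ b ∧ G.Adj u a ∧ G.Adj u b}

/-- Colours with a size and a multiset of cards. -/
structure Fo (C : Type) where
  /-- the size -/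
  sz : C → ℕ
  /-- the cards -/
  del : C → Multiset C
  /-- the empty colour -/
  o : C
  sz_del : ∀ t, ∀ s ∈ del t, sz s + 1 = sz t
  eq_o : ∀ t, del t = 0 → t = o
  sz_o : sz o = 0
  card_le : ∀ t, (del t).card ≤ sz t

namespace Fo

variable {C K : Type} (F : Fo C)

open Classical in
/-- A colour as a multiset; the empty colour is dropped. -/
noncomputable def nz (t : C) : Multiset C := if t = F.o then 0 else {t}

/-- A card of `M` that is also a card of `M'`. -/
def Quad (M M' : Multiset C) (R D R' D' : C) : Prop :=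
  R ∈ M ∧ D ∈ F.del R ∧ R' ∈ M' ∧ D' ∈ F.del R' ∧ M + F.nz D + {R'} = M' + F.nz D' + {R}

/-- One colour of size two against two colours of size one. -/
def Two (M M' : Multiset C) : Prop :=
  ∃ A B B', M = {A} ∧ M' = {B, B'} ∧ F.sz A = 2 ∧ F.sz B = 1 ∧ F.sz B' = 1

/-- Components and removal of the top. -/
structure Tr where
  /-- the components -/
  comp : C → Multiset C
  /-- removal of the tops -/
  bt : C → C
  inj : Function.Injective comp
  ne_o : ∀ a, F.o ∉ comp a
  fwd : ∀ a, ∀ R ∈ comp a, ∀ D ∈ F.del R, ∃ y ∈ F.del a, comp y + {R} = comp a + F.nz D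
  bwd : ∀ a, ∀ y ∈ F.del a, ∃ R ∈ comp a, ∃ D ∈ F.del R, comp y + {R} = comp a + F.nz D
  comp_le : ∀ a, (comp a).card ≤ (F.del a).card
  tree : ∀ a, ∀ t ∈ comp a, comp t = {t}
  bt_inj : ∀ t t', comp t = {t} → comp t' = {t'} → bt t = bt t' → t = t'
  bt_sz : ∀ t, comp t = {t} → F.sz (bt t) + 1 = F.sz t
  bt_del : ∀ t, comp t = {t} → 2 ≤ F.sz t → F.del (bt t) = (F.del t).map bt

variable [Fintype K] [DecidableEq K]

/-- The sum of `φ` over the cards of a colouring. -/
def dsum (c : K → C) (φ : (K → C) → ℕ) : ℕ :=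
  ∑ x, ((F.del (c x)).map fun s => φ (Function.update c x s)).sum

/-- The two colourings have the same deck up to `Γ`. -/
def Hyp (Γ : Subgroup (Equiv.Perm K)) (c c' : K → C) : Prop :=
  ∀ φ : (K → C) → ℕ, (∀ g ∈ Γ, ∀ y, φ (y ∘ g) = φ y) → F.dsum c φ = F.dsum c' φ

open Classical in
/-- The points with a nonempty colour. -/
noncomputable def sup (c : K → C) : Finset K := univ.filter fun x => c x ≠ F.o

omit [DecidableEq K] in
theorem mem_sup {c : K → C} {x : K} : x ∈ F.sup c ↔ c x ≠ F.o := by simp [sup]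

theorem del_o : F.del F.o = 0 :=
  Multiset.eq_zero_of_forall_notMem fun s hs => by
    have := F.sz_del _ s hs
    have := F.sz_o
    omega

theorem eq_o_of_sz {t : C} (h : F.sz t = 0) : t = F.o :=
  F.eq_o t (Multiset.card_eq_zero.1 (Nat.le_zero.1 (h ▸ F.card_le t)))

theorem exists_del {t : C} (h : t ≠ F.o) : ∃ s, s ∈ F.del t :=
  Multiset.exists_mem_of_ne_zero fun e => h (F.eq_o t e)

end Fo

section

variable {C K : Type} [Fintype K] [DecidableEq K]

open Classical in
/-- The number of elements of `Γ` that move `c` to a colouring equal to `t` on `T`. -/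
noncomputable def cnt (Γ : Subgroup (Equiv.Perm K)) (c : K → C) (T : Finset K) (t : K → C) : ℕ :=
  (univ.filter fun g : Equiv.Perm K => g ∈ Γ ∧ ∀ x ∈ T, c (g x) = t x).card

/-- `X` is the set of points of `W` at which `c` agrees with a translate of `c'`. -/
def IsTr (Γ : Subgroup (Equiv.Perm K)) (W : Finset K) (c c' : K → C) (X : Finset K) : Prop :=
  ∃ g ∈ Γ, ∀ x, x ∈ X ↔ x ∈ W ∧ c' (g x) = c x

end

/-- Irredundant sequences have length at most `l`. -/
def Irr {K : Type} (Γ : Subgroup (Equiv.Perm K)) (l : ℕ) : Prop :=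
  ∀ (r : ℕ) (x : Fin r → K),
    (∀ i, ∃ g ∈ Γ, (∀ j < i, g (x j) = x j) ∧ g (x i) ≠ x i) → r ≤ l

section

variable {W : Type}

/-- A parent relation. -/
structure Par (P : W → W → Prop) : Prop where
  uniq : ∀ u w w', P u w → P u w' → w = w'
  rk : ∃ dp : W → ℕ, ∀ u w, P u w → dp w < dp u

/-- `f` is an isomorphism from `S` to `S'` for the relation `R`. -/
def Iso (R : W → W → Prop) (f : W → W) (S S' : Finset W) : Prop :=
  Set.BijOn f S S' ∧ ∀ u ∈ S, ∀ w ∈ S, (R (f u) (f w) ↔ R u w)

open Classical in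
/-- The points of `S` without parent in `S`. -/
noncomputable def tops (P : W → W → Prop) (S : Finset W) : Finset W :=
  S.filter fun u => ∀ w ∈ S, ¬ P u w

open Classical in
/-- The points of `S` without child in `S`. -/
noncomputable def lv (P : W → W → Prop) (S : Finset W) : Finset W :=
  S.filter fun u => ∀ w ∈ S, ¬ P w u

open Classical in
/-- The points of `S` below `t`. -/
noncomputable def tree (P : W → W → Prop) (S : Finset W) (t : W) : Finset W :=
  S.filter fun u => ReflTransGen (fun a b => a ∈ S ∧ b ∈ S ∧ P a b) u t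

theorem mem_tops {P : W → W → Prop} {S : Finset W} {u : W} :
    u ∈ tops P S ↔ u ∈ S ∧ ∀ w ∈ S, ¬ P u w := by simp [tops]

theorem mem_lv {P : W → W → Prop} {S : Finset W} {u : W} :
    u ∈ lv P S ↔ u ∈ S ∧ ∀ w ∈ S, ¬ P w u := by simp [lv]

theorem mem_tree {P : W → W → Prop} {S : Finset W} {t u : W} :
    u ∈ tree P S t ↔ u ∈ S ∧ ReflTransGen (fun a b => a ∈ S ∧ b ∈ S ∧ P a b) u t := by
  simp [tree]

/-- The graph consists of its core and of trees described by `P`. -/
structure Skel (G : SimpleGraph W) (P : W → W → Prop) : Prop where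
  par : Par P
  out : ∀ u w, P u w → u ∉ core G
  ex : ∀ u, u ∉ core G → ∃ w, P u w
  adj : ∀ u w, G.Adj u w ↔ (u ∈ core G ∧ w ∈ core G ∧ G.Adj u w) ∨ P u w ∨ P w u

/-- The set is closed under edges of the core and under parents. -/
def Good (G : SimpleGraph W) (P : W → W → Prop) (S : Finset W) : Prop :=
  (∀ x ∈ S, x ∈ core G → ∀ y ∈ core G, G.Adj x y → y ∈ S) ∧ ∀ u ∈ S, ∀ w, P u w → w ∈ S

end

end Pool.Agent.Lib.MP_528c50_co.Cs
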