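import Pool.Agent.Lib.MP_528c50_co.Cs.Defs

/-! Forests: tops, trees, leaves and isomorphisms. -/

namespace Pool.Agent.Lib.MP_528c50_co.Cs

open Finset Relation

variable {W : Type} [DecidableEq W] {P : W → W → Prop} {S S' S'' : Finset W} {f g : W → W}
  {t t' u v w : W}

omit [DecidableEq W] in
theorem Iso.refl (R : W → W → Prop) (S : Finset W) : Iso R id S S :=
  ⟨Set.bijOn_id _, fun _ _ _ _ => Iff.rfl⟩

omit [DecidableEq W] in
theorem Iso.symm {R : W → W → Prop} (h : Iso R f S S') :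
    ∃ g, Iso R g S' S ∧ (∀ u ∈ S, g (f u) = u) ∧ ∀ u ∈ S', f (g u) = u := by
  have e : ∀ u, ∃ x, u ∈ S' → x ∈ S ∧ f x = u := fun u => by
    by_cases hu : u ∈ S'
    · obtain ⟨x, hx, e⟩ := h.1.surjOn hu
      exact ⟨x, fun _ => ⟨hx, e⟩⟩
    · exact ⟨u, fun c => absurd c hu⟩
  choose g hg using e
  have l : ∀ u ∈ S, g (f u) = u := fun u hu =>
    h.1.injOn (hg _ (h.1.mapsTo hu)).1 hu (hg _ (h.1.mapsTo hu)).2
  refine ⟨g, ⟨Set.InvOn.bijOn (f' := f) ⟨fun u hu => (hg u hu).2, l⟩ (fun u hu => (hg u hu).1)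
    h.1.mapsTo, fun u hu w hw => ?_⟩, l, fun u hu => (hg u hu).2⟩
  rw [← h.2 _ (hg u hu).1 _ (hg w hw).1, (hg u hu).2, (hg w hw).2]

omit [DecidableEq W] in
theorem Iso.trans {R : W → W → Prop} (h : Iso R f S S') (h' : Iso R g S' S'') :
    Iso R (g ∘ f) S S'' :=
  ⟨h'.1.comp h.1, fun u hu w hw =>
    (h'.2 _ (h.1.mapsTo hu) _ (h.1.mapsTo hw)).trans (h.2 u hu w hw)⟩

omit [DecidableEq W] in
theorem Iso.card {R : W → W → Prop} (h : Iso R f S S') : S.card = S'.card :=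
  Finset.card_nbij f h.1.mapsTo h.1.injOn h.1.surjOn

omit [DecidableEq W] in
theorem forest_sub {R : W → W → Prop} {T T' : Finset W} (h : Iso R f S S') (hT : T ⊆ S)
    (hT' : T' ⊆ S') (e : ∀ u ∈ S, u ∈ T ↔ f u ∈ T') : Iso R f T T' :=
  ⟨⟨fun u hu => (e u (hT hu)).1 hu, h.1.injOn.mono hT, fun u hu => by
    obtain ⟨x, hx, rfl⟩ := h.1.surjOn (hT' hu)
    exact ⟨x, (e x hx).2 hu, rfl⟩⟩, fun u hu w hw => h.2 u (hT hu) w (hT hw)⟩

omit [DecidableEq W] in
theorem forest_all (h : Iso P f S S') {q : W → Prop} : (∀ w ∈ S', q w) ↔ ∀ w ∈ S, q (f w) :=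
  ⟨fun c w hw => c _ (h.1.mapsTo hw), fun c w hw => by
    obtain ⟨x, hx, rfl⟩ := h.1.surjOn hw
    exact c x hx⟩

omit [DecidableEq W] in
theorem forest_tops (h : Iso P f S S') (hu : u ∈ S) : u ∈ tops P S ↔ f u ∈ tops P S' := by
  rw [mem_tops, mem_tops, forest_all h, and_iff_right hu,
    and_iff_right (mem_coe.1 (h.1.mapsTo hu))]
  exact forall₂_congr fun w hw => (h.2 u hu w hw).not.symm

omit [DecidableEq W] in
theorem forest_lift (h : Iso P f S S') (hu : u ∈ tree P S t) : f u ∈ tree P S' (f t) :=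
  mem_tree.2 ⟨h.1.mapsTo (mem_tree.1 hu).1, (mem_tree.1 hu).2.lift f fun a b c =>
    ⟨h.1.mapsTo c.1, h.1.mapsTo c.2.1, (h.2 a c.1 b c.2.1).2 c.2.2⟩⟩

omit [DecidableEq W] in
theorem forest_head (hu : u ∈ S) (h : P u w) (hw : w ∈ tree P S t) : u ∈ tree P S t :=
  mem_tree.2 ⟨hu, (mem_tree.1 hw).2.head ⟨hu, (mem_tree.1 hw).1, h⟩⟩

omit [DecidableEq W] in
theorem forest_cases (hu : u ∈ tree P S t) : u = t ∨ ∃ w ∈ tree P S t, P u w :=
  (mem_tree.1 hu).2.cases_head.imp_right fun ⟨w, h1, h2⟩ => ⟨w, mem_tree.2 ⟨h1.2.1, h2⟩, h1.2.2⟩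

theorem Iso.erase {R : W → W → Prop} (h : Iso R f S S') (hv : v ∈ S) :
    Iso R f (S.erase v) (S'.erase (f v)) :=
  forest_sub h (erase_subset _ _) (erase_subset _ _) fun u hu => by
    rw [mem_erase, mem_erase, and_iff_left hu, and_iff_left (mem_coe.1 (h.1.mapsTo hu))]
    exact (h.1.injOn.eq_iff hu hv).not.symm

omit [DecidableEq W] in
theorem Iso.tops (h : Iso P f S S') : Set.BijOn f (tops P S) (tops P S') :=
  (forest_sub h (fun _ c => (mem_tops.1 c).1) (fun _ c => (mem_tops.1 c).1)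
    fun _ hu => forest_tops h hu).1

omit [DecidableEq W] in
theorem Iso.lv (h : Iso P f S S') : Set.BijOn f (lv P S) (lv P S') :=
  (forest_sub h (fun _ c => (mem_lv.1 c).1) (fun _ c => (mem_lv.1 c).1) fun u hu => by
    rw [mem_lv, mem_lv, forest_all h, and_iff_right hu,
      and_iff_right (mem_coe.1 (h.1.mapsTo hu))]
    exact forall₂_congr fun w hw => (h.2 w hw u hu).not.symm).1

omit [DecidableEq W] in
theorem Iso.tree (h : Iso P f S S') (ht : t ∈ S) : Iso P f (tree P S t) (tree P S' (f t)) :=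
  forest_sub h (fun _ c => (mem_tree.1 c).1) (fun _ c => (mem_tree.1 c).1) fun u hu => by
    obtain ⟨g, hg, l, -⟩ := h.symm
    refine ⟨forest_lift h, fun c => ?_⟩
    have := forest_lift hg c
    rwa [l u hu, l t ht] at this

theorem Iso.sdiff_tops (h : Iso P f S S') :
    Iso P f (S \ Cs.tops P S) (S' \ Cs.tops P S') :=
  forest_sub h sdiff_subset sdiff_subset fun u hu => by
    rw [mem_sdiff, mem_sdiff, and_iff_right hu, and_iff_right (mem_coe.1 (h.1.mapsTo hu)),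
      forest_tops h hu]

omit [DecidableEq W] in
theorem self_mem_tree (ht : t ∈ S) : t ∈ tree P S t :=
  mem_tree.2 ⟨ht, .refl⟩

omit [DecidableEq W] in
theorem Par.exists_top (hP : Par P) (hu : u ∈ S) : ∃ t ∈ tops P S, u ∈ tree P S t := by
  obtain ⟨dp, hd⟩ := hP.rk
  induction e : dp u using Nat.strong_induction_on generalizing u with
  | _ n ih =>
    by_cases c : ∃ w ∈ S, P u w
    · obtain ⟨w, hw, h⟩ := c
      obtain ⟨t, ht, h'⟩ := ih _ (e ▸ hd u w h) hw rfl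
      exact ⟨t, ht, forest_head hu h h'⟩
    · exact ⟨u, mem_tops.2 ⟨hu, fun w hw h => c ⟨w, hw, h⟩⟩, self_mem_tree hu⟩

omit [DecidableEq W] in
theorem Par.top_uniq (hP : Par P) (ht : t ∈ tops P S) (ht' : t' ∈ tops P S)
    (h : u ∈ tree P S t) (h' : u ∈ tree P S t') : t = t' := by
  have k : ∀ {a b : W}, a ∈ tops P S → ReflTransGen (fun a b => a ∈ S ∧ b ∈ S ∧ P a b) a b →
      a = b := fun ha c => c.cases_head.resolve_right fun ⟨w, h1, _⟩ =>
    (mem_tops.1 ha).2 w h1.2.1 h1.2.2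
  exact (ReflTransGen.total_of_right_unique (fun a b c x y => hP.uniq a b c x.2.2 y.2.2)
    (mem_tree.1 h).2 (mem_tree.1 h').2).elim (k ht) fun c => (k ht' c).symm

omit [DecidableEq W] in
theorem Par.mem_tree_iff (hP : Par P) (ht : t ∈ tops P S) (hu : u ∈ S) (hw : w ∈ S) (h : P u w) :
    u ∈ tree P S t ↔ w ∈ tree P S t := by
  refine ⟨fun c => ?_, forest_head hu h⟩
  rcases forest_cases c with rfl | ⟨x, hx, e⟩
  · exact absurd h ((mem_tops.1 ht).2 w hw)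
  · exact hP.uniq u x w e h ▸ hx

omit [DecidableEq W] in
theorem Par.tops_tree (hP : Par P) (ht : t ∈ tops P S) : tops P (tree P S t) = {t} := by
  have _ := hP
  refine Finset.ext fun u => mem_tops.trans (Iff.trans ⟨fun c => ?_, ?_⟩ mem_singleton.symm)
  · exact (forest_cases c.1).resolve_right fun ⟨w, h1, h2⟩ => c.2 w h1 h2
  · rintro rfl
    exact ⟨self_mem_tree (mem_tops.1 ht).1, fun w hw => (mem_tops.1 ht).2 w (mem_tree.1 hw).1⟩

omit [DecidableEq W] in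
theorem Par.tree_tree (hP : Par P) (ht : t ∈ tops P S) :
    tree P (tree P S t) t = tree P S t := by
  have _ := hP
  have _ := ht
  refine Finset.ext fun u => mem_tree.trans ⟨And.left, fun c => ⟨c, ?_⟩⟩
  have h := (mem_tree.1 c).2
  clear c
  induction h using ReflTransGen.head_induction_on with
  | refl => exact .refl
  | head h1 h2 ih =>
    exact ih.head ⟨mem_tree.2 ⟨h1.1, h2.head h1⟩, mem_tree.2 ⟨h1.2.1, h2⟩, h1.2.2⟩

omit [DecidableEq W] in
theorem Par.mem_lv_tree (hP : Par P) (ht : t ∈ tops P S) :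
    v ∈ lv P (tree P S t) ↔ v ∈ lv P S ∧ v ∈ tree P S t := by
  have _ := hP
  have _ := ht
  rw [mem_lv, mem_lv]
  exact ⟨fun c => ⟨⟨(mem_tree.1 c.1).1, fun w hw h => c.2 w (forest_head hw h c.1) h⟩, c.1⟩,
    fun c => ⟨c.2, fun w hw => c.1.2 w (mem_tree.1 hw).1⟩⟩

omit [DecidableEq W] in
theorem Par.lv_nonempty (hP : Par P) (h : S.Nonempty) : (lv P S).Nonempty := by
  obtain ⟨dp, hd⟩ := hP.rk
  obtain ⟨v, hv, hm⟩ := exists_max_image S dp h
  exact ⟨v, mem_lv.2 ⟨hv, fun w hw c => (hd w v c).not_ge (hm w hw)⟩⟩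

theorem tops_erase (hv : v ∈ lv P S) : tops P (S.erase v) = (tops P S).erase v := by
  ext u
  simp only [mem_tops, mem_erase]
  refine ⟨fun c => ⟨c.1.1, c.1.2, fun w hw h => c.2 w ⟨?_, hw⟩ h⟩,
    fun c => ⟨⟨c.1, c.2.1⟩, fun w hw => c.2.2 w hw.2⟩⟩
  rintro rfl
  exact (mem_lv.1 hv).2 u c.1.2 h

theorem tree_erase (hv : v ∈ lv P S) (ht : t ≠ v) :
    tree P (S.erase v) t = (tree P S t).erase v := by
  have _ := ht
  ext u
  simp only [mem_tree, mem_erase]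
  refine ⟨fun c => ⟨c.1.1, c.1.2, c.2.lift id fun a b x => ⟨x.1.2, x.2.1.2, x.2.2⟩⟩,
    fun c => ⟨⟨c.1, c.2.1⟩, ?_⟩⟩
  obtain ⟨h1, -, h3⟩ := c
  induction h3 using ReflTransGen.head_induction_on with
  | refl => exact .refl
  | @head a c x _ ih =>
    have : c ≠ v := by
      rintro rfl
      exact (mem_lv.1 hv).2 a x.1 x.2.2
    exact (ih this).head ⟨⟨h1, x.1⟩, ⟨this, x.2.1⟩, x.2.2⟩

omit [DecidableEq W] in
theorem tree_leaf (hv : v ∈ lv P S) : tree P S v = {v} := by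
  refine Finset.ext fun u => Iff.trans ⟨fun c => ?_, ?_⟩ mem_singleton.symm
  · exact ((mem_tree.1 c).2.cases_tail.resolve_right fun ⟨w, _, x⟩ =>
      (mem_lv.1 hv).2 w x.1 x.2.2).symm
  · rintro rfl
    exact self_mem_tree (mem_lv.1 hv).1

/-- The leaves of a tree with the top removed. -/
theorem Par.mem_lv_erase (hP : Par P) (ht : tops P S = {t}) :
    v ∈ lv P (S.erase t) ↔ v ∈ lv P S ∧ v ≠ t := by
  have _ := hP
  have h0 := mem_tops.1 (ht ▸ mem_singleton_self t : t ∈ tops P S)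
  simp only [mem_lv, mem_erase]
  refine ⟨fun c => ⟨⟨c.1.2, fun w hw h => c.2 w ⟨?_, hw⟩ h⟩, c.1.1⟩,
    fun c => ⟨⟨c.2, c.1.1⟩, fun w hw => c.1.2 w hw.2⟩⟩
  rintro rfl
  exact h0.2 v c.1.2 h

theorem forest_child (hP : Par P) (ht : tops P S = {t}) (hu : u ∈ S.erase t) :
    P u t ↔ u ∈ tops P (S.erase t) := by
  refine ⟨fun c => mem_tops.2 ⟨hu, fun w hw h => (mem_erase.1 hw).1 (hP.uniq u w t h c)⟩,
    fun c => by_contra fun n => (mem_erase.1 hu).1 (mem_singleton.1 (ht ▸ mem_tops.2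
      ⟨(mem_erase.1 hu).2, fun w hw h => (mem_tops.1 c).2 w (mem_erase.2 ⟨?_, hw⟩) h⟩))⟩
  rintro rfl
  exact n h

/-- An isomorphism of two trees without their tops extends to the trees. -/
theorem Par.iso_of_erase (hP : Par P) (ht : tops P S = {t}) (ht' : tops P S' = {t'})
    (h : Iso P f (S.erase t) (S'.erase t')) : ∃ g, Iso P g S S' := by
  have h0 := mem_tops.1 (ht ▸ mem_singleton_self t : t ∈ tops P S)
  have h1 := mem_tops.1 (ht' ▸ mem_singleton_self t' : t' ∈ tops P S')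
  have m : ∀ u ∈ S, u ≠ t → f u ∈ S'.erase t' := fun u hu n =>
    h.1.mapsTo (mem_coe.2 (mem_erase.2 ⟨n, hu⟩))
  have m' : ∀ u ∈ S, (if u = t then t' else f u) ∈ S' := fun u hu => by
    split_ifs with n
    · exact h1.1
    · exact (mem_erase.1 (m u hu n)).2
  refine ⟨fun u => if u = t then t' else f u, ⟨m', fun u hu w hw e => ?_, fun u hu => ?_⟩,
    fun u hu w hw => ?_⟩
  · by_cases a : u = t <;> by_cases b : w = t <;> simp only [a, b, if_true, if_false] at e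
    · rw [a, b]
    · exact absurd e.symm (mem_erase.1 (m w hw b)).1
    · exact absurd e (mem_erase.1 (m u hu a)).1
    · exact h.1.injOn (mem_coe.2 (mem_erase.2 ⟨a, hu⟩)) (mem_coe.2 (mem_erase.2 ⟨b, hw⟩)) e
  · by_cases a : u = t'
    · exact ⟨t, h0.1, (if_pos rfl).trans a.symm⟩
    · obtain ⟨x, hx, e⟩ := h.1.surjOn (mem_coe.2 (mem_erase.2 ⟨a, hu⟩))
      exact ⟨x, (mem_erase.1 hx).2, (if_neg (mem_erase.1 hx).1).trans e⟩
  · beta_reduce
    by_cases a : u = t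
    · exact iff_of_false (by rw [if_pos a]; exact h1.2 _ (m' w hw)) (a ▸ h0.2 w hw)
    have c := mem_erase.2 ⟨a, hu⟩
    by_cases b : w = t
    · rw [if_neg a, if_pos b, b, forest_child hP ht' (m u hu a), forest_child hP ht c,
        forest_tops h c]
    · rw [if_neg a, if_neg b]
      exact h.2 u c w (mem_erase.2 ⟨b, hw⟩)

omit [DecidableEq W] in
/-- Isomorphisms of the trees are glued. -/
theorem Par.glue (hP : Par P) {e : W → W} (he : Set.BijOn e (tops P S) (tops P S'))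
    (h : ∀ t ∈ tops P S, ∃ f, Iso P f (tree P S t) (tree P S' (e t))) :
    ∃ f, Iso P f S S' ∧ ∀ t ∈ tops P S, f t = e t := by
  have : Nonempty (W → W) := ⟨id⟩
  choose! F hF using h
  choose! tp h1 h2 using fun u (hu : u ∈ S) => hP.exists_top hu
  have m : ∀ u ∈ S, F (tp u) u ∈ tree P S' (e (tp u)) := fun u hu =>
    (hF _ (h1 u hu)).1.mapsTo (h2 u hu)
  have q : ∀ u ∈ S, ∀ w ∈ S, F (tp w) w ∈ tree P S' (e (tp u)) → tp u = tp w :=
    fun u hu w hw c => he.injOn (h1 u hu) (h1 w hw)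
      (hP.top_uniq (he.mapsTo (h1 u hu)) (he.mapsTo (h1 w hw)) c (m w hw))
  refine ⟨fun u => F (tp u) u, ⟨⟨fun u hu => (mem_tree.1 (m u hu)).1, fun u hu w hw c => ?_,
    fun u hu => ?_⟩, fun u hu w hw => ?_⟩, fun t ht => ?_⟩
  · have c' : F (tp u) u = F (tp w) w := c
    have d := q u hu w hw (c' ▸ m u hu)
    exact (hF _ (h1 u hu)).1.injOn (h2 u hu) (d ▸ h2 w hw) (c'.trans (by rw [d]))
  · obtain ⟨t', ht', c⟩ := hP.exists_top hu
    obtain ⟨t, ht, rfl⟩ := he.surjOn ht'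
    obtain ⟨x, hx, rfl⟩ := (hF t ht).1.surjOn c
    have x1 := (mem_tree.1 hx).1
    exact ⟨x, x1, by simp only [hP.top_uniq (h1 x x1) ht (h2 x x1) hx]⟩
  · have k : tp u = tp w → (P (F (tp u) u) (F (tp w) w) ↔ P u w) := fun d => by
      rw [← d]
      exact (hF _ (h1 u hu)).2 u (h2 u hu) w (d ▸ h2 w hw)
    exact ⟨fun c => (k (q u hu w hw ((hP.mem_tree_iff (he.mapsTo (h1 u hu))
      (mem_tree.1 (m u hu)).1 (mem_tree.1 (m w hw)).1 c).1 (m u hu)))).1 c,
      fun c => (k (hP.top_uniq (h1 u hu) (h1 w hw)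
        ((hP.mem_tree_iff (h1 u hu) hu hw c).1 (h2 u hu)) (h2 w hw))).2 c⟩
  · have t1 := (mem_tops.1 ht).1
    have := (hF t ht).tops.mapsTo (mem_coe.2 (hP.tops_tree ht ▸ mem_singleton_self t))
    rw [hP.tops_tree (he.mapsTo ht)] at this
    simp only [hP.top_uniq (h1 t t1) ht (h2 t t1) (self_mem_tree t1)]
    exact mem_singleton.1 this

end Pool.Agent.Lib.MP_528c50_co.Cs
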