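import Pool.Agent.Lib.MP_528c50_co.Cs.Forest

/-! The trees that hang from the core of a graph. -/

namespace Pool.Agent.Lib.MP_528c50_co.Cs

open Finset Relation

variable {W : Type} {G : SimpleGraph W} {P : W → W → Prop} {S S' : Finset W} {f : W → W} {u : W}

theorem graph_two (hu : u ∈ core G) :
    ∃ a ∈ core G, ∃ b ∈ core G, a ≠ b ∧ G.Adj u a ∧ G.Adj u b := by
  obtain ⟨T, hT, h⟩ := hu
  obtain ⟨a, ha, b, hb, hab⟩ := h u hT
  exact ⟨a, ⟨T, ha, h⟩, b, ⟨T, hb, h⟩, hab⟩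

theorem graph_par (hc : ∀ v, ∃ x ∈ core G, G.Reachable v x) :
    ∃ dp : W → ℕ, ∃ par : W → W, ∀ u, u ∉ core G → G.Adj u (par u) ∧ dp (par u) < dp u := by
  classical
  have hex : ∀ v, ∃ n, ∃ x ∈ core G, ∃ p : G.Walk v x, p.length = n := fun v => by
    obtain ⟨x, hx, ⟨p⟩⟩ := hc v
    exact ⟨_, x, hx, p, rfl⟩
  have key : ∀ u, ∃ w, u ∉ core G → G.Adj u w ∧ Nat.find (hex w) < Nat.find (hex u) := by
    intro u
    obtain ⟨x, hx, p, hp⟩ := Nat.find_spec (hex u)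
    cases p with
    | nil => exact ⟨u, fun hu => absurd hx hu⟩
    | cons h q =>
      refine ⟨_, fun _ => ⟨h, ?_⟩⟩
      have h1 := Nat.find_min' (hex _) ⟨x, hx, q, rfl⟩
      rw [SimpleGraph.Walk.length_cons] at hp
      omega
  choose par hpar using key
  exact ⟨fun v => Nat.find (hex v), par, hpar⟩

theorem exists_skel (hc : ∀ v, ∃ x ∈ core G, G.Reachable v x) : ∃ P, Skel G P := by
  obtain ⟨dp, par, hp⟩ := graph_par hc
  let Q : W → W → Prop := fun u w => u ∉ core G ∧ par u = w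
  have hadj : ∀ u w, Q u w → G.Adj u w := fun u w h => h.2 ▸ (hp u h.1).1
  have hdp : ∀ u w, Q u w → dp w < dp u := fun u w h => h.2 ▸ (hp u h.1).2
  have key : ∀ u w, G.Adj u w → ¬ Q u w → ∀ z, ReflTransGen Q u z → z ∉ core G →
      ∃ a, (ReflTransGen Q u a ∨ a = w) ∧ par z ≠ a ∧ G.Adj z a := by
    intro u w huw hq z hz hzc
    rcases hz.cases_tail with e | ⟨y, hy, hyz⟩
    · subst e
      exact ⟨w, Or.inr rfl, fun e => hq ⟨hzc, e⟩, huw⟩
    · refine ⟨y, Or.inl hy, fun e => ?_, (hadj _ _ hyz).symm⟩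
      have h1 := hdp _ _ hyz
      have h2 := hdp z y ⟨hzc, e⟩
      omega
  refine ⟨Q, ⟨fun u w w' h h' => h.2.symm.trans h'.2, dp, hdp⟩, fun u w h => h.1,
    fun u hu => ⟨par u, hu, rfl⟩, fun u w => ⟨fun huw => ?_, ?_⟩⟩
  · by_contra hn
    have h1 : ¬ Q u w := fun h => hn (Or.inr (Or.inl h))
    have h2 : ¬ Q w u := fun h => hn (Or.inr (Or.inr h))
    have hT : ∀ z ∈ {z | z ∈ core G ∨ ReflTransGen Q u z ∨ ReflTransGen Q w z},
        ∃ a ∈ {z | z ∈ core G ∨ ReflTransGen Q u z ∨ ReflTransGen Q w z},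
        ∃ b ∈ {z | z ∈ core G ∨ ReflTransGen Q u z ∨ ReflTransGen Q w z},
          a ≠ b ∧ G.Adj z a ∧ G.Adj z b := by
      intro z hz
      by_cases hzc : z ∈ core G
      · obtain ⟨a, ha, b, hb, h⟩ := graph_two hzc
        exact ⟨a, Or.inl ha, b, Or.inl hb, h⟩
      · rcases hz with hz | hz | hz
        · exact absurd hz hzc
        · obtain ⟨a, ha, hne, hza⟩ := key u w huw h1 z hz hzc
          refine ⟨par z, Or.inr (Or.inl (hz.tail ⟨hzc, rfl⟩)), a, Or.inr ?_, hne,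
            (hp z hzc).1, hza⟩
          rcases ha with ha | ha
          · exact Or.inl ha
          · exact Or.inr (ha ▸ ReflTransGen.refl)
        · obtain ⟨a, ha, hne, hza⟩ := key w u huw.symm h2 z hz hzc
          refine ⟨par z, Or.inr (Or.inr (hz.tail ⟨hzc, rfl⟩)), a, Or.inr ?_, hne,
            (hp z hzc).1, hza⟩
          rcases ha with ha | ha
          · exact Or.inr ha
          · exact Or.inl (ha ▸ ReflTransGen.refl)
    exact hn (Or.inl ⟨⟨_, Or.inr (Or.inl ReflTransGen.refl), hT⟩,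
      ⟨_, Or.inr (Or.inr ReflTransGen.refl), hT⟩, huw⟩)
  · rintro (h | h | h)
    · exact h.2.2
    · exact hadj _ _ h
    · exact (hadj _ _ h).symm

theorem graph_core_map (hS : Good G P S) (hf : Iso G.Adj f S S') (hu : u ∈ S)
    (hc : u ∈ core G) : f u ∈ core G := by
  refine ⟨f '' {x | x ∈ S ∧ x ∈ core G}, ⟨u, ⟨hu, hc⟩, rfl⟩, ?_⟩
  rintro _ ⟨x, ⟨hx, hxc⟩, rfl⟩
  obtain ⟨a, ha, b, hb, hab, hxa, hxb⟩ := graph_two hxc
  have haS := hS.1 x hx hxc a ha hxa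
  have hbS := hS.1 x hx hxc b hb hxb
  exact ⟨f a, ⟨a, ⟨haS, ha⟩, rfl⟩, f b, ⟨b, ⟨hbS, hb⟩, rfl⟩,
    fun e => hab (hf.1.injOn haS hbS e), (hf.2 x hx a haS).2 hxa, (hf.2 x hx b hbS).2 hxb⟩

theorem graph_iso_fwd (h : Skel G P) (hS : Good G P S) (hS' : Good G P S')
    (hf : Iso G.Adj f S S') : ∀ u ∈ S, ∀ w ∈ S, P u w → P (f u) (f w) := by
  obtain ⟨dp, hdp⟩ := h.par.rk
  obtain ⟨g, hg, hgf, -⟩ := hf.symm
  have hback : ∀ u ∈ S, f u ∈ core G → u ∈ core G := fun u hu hc =>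
    hgf u hu ▸ graph_core_map hS' hg (hf.1.mapsTo hu) hc
  have main : ∀ n, ∀ u ∈ S, dp u = n → ∀ w ∈ S, P u w → P (f u) (f w) := by
    intro n
    induction n using Nat.strong_induction_on with
    | _ n ih =>
      intro u hu hn w hw huw
      have h1 : G.Adj u w := (h.adj u w).2 (Or.inr (Or.inl huw))
      rcases (h.adj _ _).1 ((hf.2 u hu w hw).2 h1) with h2 | h2 | h2
      · exact absurd (hback u hu h2.1) (h.out u w huw)
      · exact h2
      · have h3 : w ∉ core G := fun hc => h.out _ _ h2 (graph_core_map hS hf hw hc)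
        obtain ⟨w2, h4⟩ := h.ex w h3
        have h5 := hS.2 w hw w2 h4
        have h6 := ih (dp w) (hn ▸ hdp u w huw) w hw rfl w2 h5 h4
        have h7 : u = w2 := hf.1.injOn hu h5 (h.par.uniq _ _ _ h2 h6)
        subst h7
        have h8 := hdp _ _ huw
        have h9 := hdp _ _ h4
        omega
  exact fun u hu => main _ u hu rfl

theorem Skel.iso (h : Skel G P) (hS : Good G P S) (hS' : Good G P S') (hf : Iso G.Adj f S S') :
    Iso P f S S' := by
  refine ⟨hf.1, fun u hu w hw => ⟨fun huw => ?_, graph_iso_fwd h hS hS' hf u hu w hw⟩⟩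
  obtain ⟨g, hg, hgf, -⟩ := hf.symm
  have := graph_iso_fwd h hS' hS hg _ (hf.1.mapsTo hu) _ (hf.1.mapsTo hw) huw
  rwa [hgf u hu, hgf w hw] at this

theorem Skel.mem_tops (h : Skel G P) (hS : Good G P S) :
    u ∈ tops P S ↔ u ∈ S ∧ u ∈ core G := by
  rw [Cs.mem_tops]
  refine and_congr_right fun hu => ⟨fun hn => ?_, fun hc w _ hw => h.out u w hw hc⟩
  by_contra hc
  obtain ⟨w, hw⟩ := h.ex u hc
  exact hn w (hS.2 u hu w hw) hw

theorem graph_leaf (hu : ∃! w, G.Adj u w) : u ∉ core G := by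
  intro hc
  obtain ⟨a, -, b, -, hab, ha, hb⟩ := graph_two hc
  exact hab (hu.unique ha hb)

theorem Skel.leaf (h : Skel G P) : (∃! w, G.Adj u w) ↔ u ∉ core G ∧ ∀ w, ¬ P w u := by
  obtain ⟨dp, hdp⟩ := h.par.rk
  constructor
  · intro hu
    refine ⟨graph_leaf hu, fun w hw => ?_⟩
    obtain ⟨w0, h0⟩ := h.ex u (graph_leaf hu)
    have e : w = w0 := hu.unique ((h.adj _ _).2 (Or.inr (Or.inr hw)))
      ((h.adj _ _).2 (Or.inr (Or.inl h0)))
    subst e
    have h1 := hdp _ _ hw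
    have h2 := hdp _ _ h0
    omega
  · rintro ⟨hc, hn⟩
    obtain ⟨w0, h0⟩ := h.ex u hc
    refine ⟨w0, (h.adj _ _).2 (Or.inr (Or.inl h0)), fun y hy => ?_⟩
    rcases (h.adj _ _).1 hy with h1 | h1 | h1
    · exact absurd h1.1 hc
    · exact h.par.uniq _ _ _ h1 h0
    · exact absurd h1 (hn y)

/-- A graph with a common card is again joined to its core. -/
theorem rooted_of_card {V V' : Type} {G : SimpleGraph V} {H : SimpleGraph V'}
    (hc : ∀ v, ∃ x ∈ core G, G.Reachable v x) {v : V} {v' : V'} (hv : ∃! w, G.Adj v w)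
    (hv' : ∃! w, H.Adj v' w) (φ : G.induce {v}ᶜ ≃g H.induce {v'}ᶜ) :
    ∀ v, ∃ x ∈ core H, H.Reachable v x := by
  classical
  have hvc := graph_leaf hv
  obtain ⟨n, hn, hnu⟩ := hv
  obtain ⟨n', hn', -⟩ := hv'
  let r : V → V' := fun u => if h : u = v then (φ ⟨n, hn.ne'⟩ : V') else (φ ⟨u, h⟩ : V')
  have hr : ∀ u (h : u ≠ v), r u = (φ ⟨u, h⟩ : V') := fun u h => dif_neg h
  have hrv : r v = r n := (dif_pos rfl).trans (hr n hn.ne').symm
  have hadj : ∀ a b, a ≠ v → b ≠ v → G.Adj a b → H.Adj (r a) (r b) := by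
    intro a b ha hb hab
    rw [hr a ha, hr b hb]
    exact (φ.map_rel_iff (a := ⟨a, ha⟩) (b := ⟨b, hb⟩)).2 hab
  have hstep : ∀ a b, G.Adj a b → H.Reachable (r a) (r b) := by
    intro a b hab
    by_cases ha : a = v
    · subst ha
      rw [hnu b hab, hrv]
    · by_cases hb : b = v
      · subst hb
        rw [hnu a hab.symm, hrv]
      · exact (hadj a b ha hb hab).reachable
  have hreach : ∀ a b, G.Reachable a b → H.Reachable (r a) (r b) := by
    rintro a b ⟨p⟩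
    induction p with
    | nil => exact SimpleGraph.Reachable.refl _
    | cons h _ ih => exact (hstep _ _ h).trans ih
  have hcore : ∀ x ∈ core G, r x ∈ core H := by
    intro x hx
    refine ⟨r '' core G, ⟨x, hx, rfl⟩, ?_⟩
    rintro _ ⟨y, hy, rfl⟩
    obtain ⟨a, ha, b, hb, hab, hya, hyb⟩ := graph_two hy
    have ne : ∀ z ∈ core G, z ≠ v := fun z hz e => hvc (e ▸ hz)
    refine ⟨r a, ⟨a, ha, rfl⟩, r b, ⟨b, hb, rfl⟩, fun e => hab ?_,
      hadj _ _ (ne y hy) (ne a ha) hya, hadj _ _ (ne y hy) (ne b hb) hyb⟩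
    rw [hr a (ne a ha), hr b (ne b hb)] at e
    exact congrArg Subtype.val (φ.injective (Subtype.ext e))
  have hne : ∀ w, w ≠ v' → ∃ x ∈ core H, H.Reachable w x := by
    intro w hw
    obtain ⟨⟨u, hu⟩, e⟩ := φ.surjective ⟨w, hw⟩
    obtain ⟨x, hx, hux⟩ := hc u
    refine ⟨r x, hcore x hx, ?_⟩
    have e' : r u = w := (hr u hu).trans (congrArg Subtype.val e)
    exact e' ▸ hreach u x hux
  intro w
  by_cases hw : w = v'
  · obtain ⟨x, hx, h⟩ := hne n' hn'.ne'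
    exact ⟨x, hx, hw ▸ hn'.reachable.trans h⟩
  · exact hne w hw

theorem core_sum_inl {V V' : Type} (G : SimpleGraph V) (H : SimpleGraph V') (v : V) :
    Sum.inl v ∈ core (G ⊕g H) ↔ v ∈ core G := by
  constructor
  · rintro ⟨T, hT, h⟩
    refine ⟨Sum.inl ⁻¹' T, hT, fun u hu => ?_⟩
    obtain ⟨a, ha, b, hb, hab, hua, hub⟩ := h _ hu
    rcases a with a | a
    · rcases b with b | b
      · exact ⟨a, ha, b, hb, fun e => hab (congrArg _ e), hua, hub⟩
      · exact absurd hub (by simp)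
    · exact absurd hua (by simp)
  · rintro ⟨T, hT, h⟩
    refine ⟨Sum.inl '' T, ⟨v, hT, rfl⟩, ?_⟩
    rintro _ ⟨u, hu, rfl⟩
    obtain ⟨a, ha, b, hb, hab, hua, hub⟩ := h _ hu
    exact ⟨_, ⟨a, ha, rfl⟩, _, ⟨b, hb, rfl⟩, fun e => hab (Sum.inl_injective e), hua, hub⟩

theorem core_sum_inr {V V' : Type} (G : SimpleGraph V) (H : SimpleGraph V') (v : V') :
    Sum.inr v ∈ core (G ⊕g H) ↔ v ∈ core H := by
  constructor
  · rintro ⟨T, hT, h⟩
    refine ⟨Sum.inr ⁻¹' T, hT, fun u hu => ?_⟩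
    obtain ⟨a, ha, b, hb, hab, hua, hub⟩ := h _ hu
    rcases a with a | a
    · exact absurd hua (by simp)
    · rcases b with b | b
      · exact absurd hub (by simp)
      · exact ⟨a, ha, b, hb, fun e => hab (congrArg _ e), hua, hub⟩
  · rintro ⟨T, hT, h⟩
    refine ⟨Sum.inr '' T, ⟨v, hT, rfl⟩, ?_⟩
    rintro _ ⟨u, hu, rfl⟩
    obtain ⟨a, ha, b, hb, hab, hua, hub⟩ := h _ hu
    exact ⟨_, ⟨a, ha, rfl⟩, _, ⟨b, hb, rfl⟩, fun e => hab (Sum.inr_injective e), hua, hub⟩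

end Pool.Agent.Lib.MP_528c50_co.Cs
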