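import Pool.Agent.Lib.MP_528c50_co.Cs.MainW

/-! Graphs with many endpoints and a core with short irredundant sequences. -/

namespace Pool.Agent.Lib.MP_528c50_co.Cs

open Finset Function

variable {V V' : Type} {G : SimpleGraph V} {H : SimpleGraph V'}

theorem main_inl (a : V) : (∃! w, (G ⊕g H).Adj (Sum.inl a) w) ↔ ∃! w, G.Adj a w := by
  constructor
  · rintro ⟨w | w, h1, h2⟩
    · exact ⟨w, by simpa using h1, fun y hy => Sum.inl_injective (h2 _ (by simpa using hy))⟩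
    · simp at h1
  · rintro ⟨w, h1, h2⟩
    refine ⟨Sum.inl w, by simpa using h1, ?_⟩
    rintro (y | y) hy
    · rw [h2 y (by simpa using hy)]
    · simp at hy

theorem main_inr (a : V') : (∃! w, (G ⊕g H).Adj (Sum.inr a) w) ↔ ∃! w, H.Adj a w := by
  constructor
  · rintro ⟨w | w, h1, h2⟩
    · simp at h1
    · exact ⟨w, by simpa using h1, fun y hy => Sum.inr_injective (h2 _ (by simpa using hy))⟩
  · rintro ⟨w, h1, h2⟩
    refine ⟨Sum.inr w, by simpa using h1, ?_⟩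
    rintro (y | y) hy
    · simp at hy
    · rw [h2 y (by simpa using hy)]

theorem main_card [DecidableEq V] [DecidableEq V'] {A B : Finset (V ⊕ V')}
    (hA : ∀ u, u ∈ A ↔ ∃ a, Sum.inl a = u) (hB : ∀ u, u ∈ B ↔ ∃ a, Sum.inr a = u) {v : V}
    {v' : V'} (φ : G.induce {v}ᶜ ≃g H.induce {v'}ᶜ) :
    ∃ f, Iso (G ⊕g H).Adj f (A.erase (Sum.inl v)) (B.erase (Sum.inr v')) := by
  obtain ⟨f, hf⟩ : ∃ f : V ⊕ V' → V ⊕ V', ∀ a : ({v}ᶜ : Set V),
      f (Sum.inl a.1) = Sum.inr (φ a).1 :=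
    ⟨Sum.elim (fun a => if h : a ∈ ({v}ᶜ : Set V) then Sum.inr (φ ⟨a, h⟩).1 else Sum.inl a)
      Sum.inr, fun a => dif_pos a.2⟩
  have m : ∀ u, u ∈ A.erase (Sum.inl v) ↔ ∃ a : ({v}ᶜ : Set V), Sum.inl a.1 = u := fun u => by
    rw [mem_erase, hA]
    constructor
    · rintro ⟨h, a, rfl⟩
      exact ⟨⟨a, fun z => h (congrArg _ z)⟩, rfl⟩
    · rintro ⟨a, rfl⟩
      exact ⟨fun z => a.2 (Sum.inl_injective z), a, rfl⟩
  have m' : ∀ u, u ∈ B.erase (Sum.inr v') ↔ ∃ a : ({v'}ᶜ : Set V'), Sum.inr a.1 = u := fun u => by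
    rw [mem_erase, hB]
    constructor
    · rintro ⟨h, a, rfl⟩
      exact ⟨⟨a, fun z => h (congrArg _ z)⟩, rfl⟩
    · rintro ⟨a, rfl⟩
      exact ⟨fun z => a.2 (Sum.inr_injective z), a, rfl⟩
  refine ⟨f, ⟨fun u hu => ?_, fun u hu w hw e => ?_, fun u hu => ?_⟩, fun u hu w hw => ?_⟩
  · obtain ⟨a, rfl⟩ := (m u).1 hu
    exact (m' _).2 ⟨φ a, (hf a).symm⟩
  · obtain ⟨a, rfl⟩ := (m u).1 hu
    obtain ⟨b, rfl⟩ := (m w).1 hw
    rw [hf, hf] at e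
    rw [φ.injective (Subtype.ext (Sum.inr_injective e))]
  · obtain ⟨a, rfl⟩ := (m' u).1 hu
    exact ⟨_, (m _).2 ⟨φ.symm a, rfl⟩, by rw [hf, RelIso.apply_symm_apply]⟩
  · obtain ⟨a, rfl⟩ := (m u).1 hu
    obtain ⟨b, rfl⟩ := (m w).1 hw
    rw [hf, hf]
    simpa using φ.map_rel_iff (a := a) (b := b)

theorem main_back {A B : Finset (V ⊕ V')} (hA : ∀ u, u ∈ A ↔ ∃ a, Sum.inl a = u)
    (hB : ∀ u, u ∈ B ↔ ∃ a, Sum.inr a = u) {f : V ⊕ V' → V ⊕ V'}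
    (hf : Iso (G ⊕g H).Adj f A B) : Nonempty (G ≃g H) := by
  have m : ∀ a, Sum.inl a ∈ A := fun a => (hA _).2 ⟨a, rfl⟩
  choose g hg using fun a => (hB _).1 (hf.1.mapsTo (m a))
  refine ⟨⟨Equiv.ofBijective g ⟨fun a b e => ?_, fun b => ?_⟩, fun {a b} => ?_⟩⟩
  · exact Sum.inl_injective (hf.1.injOn (m a) (m b) (by rw [← hg, ← hg, e]))
  · obtain ⟨u, hu, e⟩ := hf.1.surjOn ((hB _).2 ⟨b, rfl⟩)
    obtain ⟨a, rfl⟩ := (hA u).1 hu
    exact ⟨a, Sum.inr_injective ((hg a).trans e)⟩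
  · have := hf.2 _ (m a) _ (m b)
    rw [← hg, ← hg] at this
    simpa using this

theorem main [Finite V] [Finite V'] (l : ℕ) (hc : ∀ v, ∃ x ∈ core G, G.Reachable v x)
    (hl : ∀ (r : ℕ) (x : Fin r → core G), (∀ i, ∃ g : G.induce (core G) ≃g G.induce (core G),
      (∀ j < i, g (x j) = x j) ∧ g (x i) ≠ x i) → r ≤ l)
    (hk : (4 * l * (Nat.log 2 l + 4) + 2) ^ 2 ≤ {v | ∃! w, G.Adj v w}.ncard)
    (σ : {v // ∃! w, G.Adj v w} ≃ {v // ∃! w, H.Adj v w})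
    (hσ : ∀ v, Nonempty (G.induce {v.1}ᶜ ≃g H.induce {(σ v).1}ᶜ)) : Nonempty (G ≃g H) := by
  classical
  have := Fintype.ofFinite V
  have := Fintype.ofFinite V'
  have hk' : (4 * l * (Nat.log 2 l + 4) + 2) ^ 2 ≤ Fintype.card {v // ∃! w, G.Adj v w} := by
    rw [← Nat.card_eq_fintype_card]
    exact hk
  obtain ⟨v0⟩ : Nonempty {v // ∃! w, G.Adj v w} :=
    Fintype.card_pos_iff.1 (lt_of_lt_of_le (by positivity) hk')
  obtain ⟨φ0⟩ := hσ v0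
  have hc' := rooted_of_card hc v0.2 (σ v0).2 φ0
  obtain ⟨A, hA⟩ : ∃ A : Finset (V ⊕ V'), ∀ u, u ∈ A ↔ ∃ a, Sum.inl a = u :=
    ⟨univ.image Sum.inl, by simp⟩
  obtain ⟨B, hB⟩ : ∃ B : Finset (V ⊕ V'), ∀ u, u ∈ B ↔ ∃ a, Sum.inr a = u :=
    ⟨univ.image Sum.inr, by simp⟩
  obtain ⟨f, hf⟩ := mainW (G := G ⊕g H) (K := core G) (A := A) (B := B) (l := l)
    (ι := fun x => Sum.inl x.1) (e := fun v : {v // ∃! w, G.Adj v w} => Sum.inl v.1)
    (e' := fun v => Sum.inr (σ v).1) (by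
      rintro (v | v)
      · obtain ⟨x, hx, r⟩ := hc v
        exact ⟨_, (core_sum_inl G H x).2 hx, r.map SimpleGraph.Embedding.sumInl.toHom⟩
      · obtain ⟨x, hx, r⟩ := hc' v
        exact ⟨_, (core_sum_inr G H x).2 hx, r.map SimpleGraph.Embedding.sumInr.toHom⟩)
    (fun u hu w a => by
      obtain ⟨u, rfl⟩ := (hA u).1 hu
      cases w with
      | inl w => exact (hA _).2 ⟨w, rfl⟩
      | inr w => simp at a)
    (fun u hu w a => by
      obtain ⟨u, rfl⟩ := (hB u).1 hu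
      cases w with
      | inl w => simp at a
      | inr w => exact (hB _).2 ⟨w, rfl⟩)
    (fun x y a => Subtype.ext (Sum.inl_injective a))
    (fun u => by
      rw [hA]
      constructor
      · rintro ⟨x, rfl⟩
        exact ⟨⟨_, rfl⟩, (core_sum_inl G H _).2 x.2⟩
      · rintro ⟨⟨a, rfl⟩, b⟩
        exact ⟨⟨a, (core_sum_inl G H _).1 b⟩, rfl⟩)
    (fun x y a => Subtype.ext (Sum.inl_injective a))
    (fun u => by
      rw [hA]
      constructor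
      · rintro ⟨x, rfl⟩
        exact ⟨⟨_, rfl⟩, (main_inl _).2 x.2⟩
      · rintro ⟨⟨a, rfl⟩, b⟩
        exact ⟨⟨a, (main_inl _).1 b⟩, rfl⟩)
    (fun x y a => σ.injective (Subtype.ext (Sum.inr_injective a)))
    (fun u => by
      rw [hB]
      constructor
      · rintro ⟨x, rfl⟩
        exact ⟨⟨_, rfl⟩, (main_inr _).2 (σ x).2⟩
      · rintro ⟨⟨a, rfl⟩, b⟩
        exact ⟨σ.symm ⟨a, (main_inr _).1 b⟩, by simp⟩)
    (fun v => (hσ v).elim fun φ => main_card hA hB φ)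
    (fun r x hx => hl r x fun i => by
      obtain ⟨g, hg, a⟩ := hx i
      exact ⟨⟨g, fun {a b} => by simpa using hg a b⟩, a⟩) hk'
  exact main_back hA hB hf

end Pool.Agent.Lib.MP_528c50_co.Cs
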