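import Pool.Agent.Lib.MP_528c50_co.Cs.Forest

/-! Isomorphism classes of forests as colours. -/

namespace Pool.Agent.Lib.MP_528c50_co.Cs

open Finset Relation

variable {W : Type} [DecidableEq W] {P : W → W → Prop}

theorem quot_map_eq {C : Type} {A A' : Finset W} {f : W → W} {φ ψ : W → C}
    (hf : Set.BijOn f A A') (h : ∀ a ∈ A, φ a = ψ (f a)) : A.val.map φ = A'.val.map ψ := by
  have h1 : A' = A.image f := by
    apply Finset.coe_injective
    rw [Finset.coe_image, hf.image_eq]
  rw [h1, Finset.image_val_of_injOn hf.injOn, Multiset.map_map]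
  exact Multiset.map_congr rfl fun a ha => h a ha

theorem quot_bij {C : Type} (φ ψ : W → C) (A : Finset W) : ∀ A' : Finset W,
    A.val.map φ = A'.val.map ψ → ∃ e : W → W, Set.BijOn e A A' ∧ ∀ a ∈ A, φ a = ψ (e a) := by
  induction A using Finset.induction_on with
  | empty =>
    intro A' h
    have h0 : A' = ∅ := by
      have := congrArg Multiset.card h
      simp only [Finset.empty_val, Multiset.map_zero, Multiset.card_zero, Multiset.card_map,
        Finset.card_val] at this
      exact Finset.card_eq_zero.1 this.symm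
    subst h0
    exact ⟨id, by simp, by simp⟩
  | insert a A ha ih =>
    intro A' h
    rw [Finset.insert_val_of_notMem ha, Multiset.map_cons] at h
    have h1 : φ a ∈ A'.val.map ψ := h ▸ Multiset.mem_cons_self _ _
    obtain ⟨a', ha', e'⟩ := Multiset.mem_map.1 h1
    have ha'' : a' ∈ A' := ha'
    have h2 : A'.val = a' ::ₘ (A'.erase a').val := by
      rw [Finset.erase_val, Multiset.cons_erase ha']
    rw [h2, Multiset.map_cons, e', Multiset.cons_inj_right] at h
    obtain ⟨e, he, hφ⟩ := ih _ h
    have h3 : ∀ x ∈ A, Function.update e a a' x = e x := fun x hx =>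
      Function.update_of_ne (fun hxa : x = a => ha (hxa ▸ hx)) _ _
    refine ⟨Function.update e a a', ?_, ?_⟩
    · have h4 : Set.BijOn (Function.update e a a') A (A'.erase a' : Finset W) :=
        he.congr fun x hx => (h3 x hx).symm
      have h5 := h4.insert (a := a) (by simp)
      rw [Function.update_self, ← Finset.coe_insert, ← Finset.coe_insert,
        Finset.insert_erase ha''] at h5
      exact h5
    · intro x hx
      rcases Finset.mem_insert.1 hx with rfl | hx
      · rw [Function.update_self, e']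
      · rw [h3 x hx, hφ x hx]

/-- Isomorphism of forests. -/
def quotS (P : W → W → Prop) : Setoid (Finset W) where
  r S S' := ∃ f, Iso P f S S'
  iseqv :=
    ⟨fun S => ⟨id, Iso.refl P S⟩, fun ⟨_, h⟩ => let ⟨g, hg, _⟩ := h.symm; ⟨g, hg⟩,
      fun ⟨_, h⟩ ⟨_, h'⟩ => ⟨_, h.trans h'⟩⟩

/-- The class of a forest. -/
def quotMk (P : W → W → Prop) (S : Finset W) : Quotient (quotS P) := Quotient.mk (quotS P) S

omit [DecidableEq W] in
theorem quot_mk_eq {S S' : Finset W} : quotMk P S = quotMk P S' ↔ ∃ f, Iso P f S S' :=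
  Quotient.eq

omit [DecidableEq W] in
theorem quot_surj (a : Quotient (quotS P)) : ∃ S, a = quotMk P S := by
  obtain ⟨S, rfl⟩ := Quotient.exists_rep a
  exact ⟨S, rfl⟩

/-- The size of a class. -/
def quotSz (P : W → W → Prop) : Quotient (quotS P) → ℕ :=
  Quotient.lift Finset.card fun _ _ ⟨_, h⟩ => h.card

/-- The cards of a class. -/
noncomputable def quotDel (P : W → W → Prop) :
    Quotient (quotS P) → Multiset (Quotient (quotS P)) :=
  Quotient.lift (fun S => (lv P S).val.map fun v => quotMk P (S.erase v))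
    fun _ _ ⟨f, h⟩ => quot_map_eq h.lv fun _ hv =>
      quot_mk_eq.2 ⟨f, h.erase (mem_lv.1 hv).1⟩

/-- The components of a class. -/
noncomputable def quotComp (P : W → W → Prop) :
    Quotient (quotS P) → Multiset (Quotient (quotS P)) :=
  Quotient.lift (fun S => (tops P S).val.map fun t => quotMk P (tree P S t))
    fun _ _ ⟨f, h⟩ => quot_map_eq h.tops fun _ ht =>
      quot_mk_eq.2 ⟨f, h.tree (mem_tops.1 ht).1⟩

/-- Removal of the tops. -/
noncomputable def quotBt (P : W → W → Prop) : Quotient (quotS P) → Quotient (quotS P) :=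
  Quotient.lift (fun S => quotMk P (S \ tops P S))
    fun _ _ ⟨f, h⟩ => quot_mk_eq.2 ⟨f, h.sdiff_tops⟩

omit [DecidableEq W] in
theorem quot_sz (S : Finset W) : quotSz P (quotMk P S) = S.card := rfl

theorem quot_del (S : Finset W) :
    quotDel P (quotMk P S) = (lv P S).val.map fun v => quotMk P (S.erase v) := rfl

theorem quot_comp (S : Finset W) :
    quotComp P (quotMk P S) = (tops P S).val.map fun t => quotMk P (tree P S t) := rfl

theorem quot_bt (S : Finset W) : quotBt P (quotMk P S) = quotMk P (S \ tops P S) := rfl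

omit [DecidableEq W] in
theorem quot_eq_empty {S : Finset W} (h : quotMk P S = quotMk P ∅) : S = ∅ := by
  have := congrArg (quotSz P) h
  rw [quot_sz, quot_sz, Finset.card_empty] at this
  exact Finset.card_eq_zero.1 this

theorem quot_mem_del {S : Finset W} {y : Quotient (quotS P)} :
    y ∈ quotDel P (quotMk P S) ↔ ∃ v ∈ lv P S, quotMk P (S.erase v) = y := by
  rw [quot_del, Multiset.mem_map]
  rfl

theorem quot_mem_comp {S : Finset W} {y : Quotient (quotS P)} :
    y ∈ quotComp P (quotMk P S) ↔ ∃ t ∈ tops P S, quotMk P (tree P S t) = y := by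
  rw [quot_comp, Multiset.mem_map]
  rfl

/-- The classes as colours. -/
noncomputable def quotFo (hP : Par P) : Fo (Quotient (quotS P)) where
  sz := quotSz P
  del := quotDel P
  o := quotMk P ∅
  sz_del := by
    intro t s hs
    obtain ⟨S, rfl⟩ := quot_surj t
    obtain ⟨v, hv, rfl⟩ := quot_mem_del.1 hs
    rw [quot_sz, quot_sz]
    exact Finset.card_erase_add_one (mem_lv.1 hv).1
  eq_o := by
    intro t h
    obtain ⟨S, rfl⟩ := quot_surj t
    rcases S.eq_empty_or_nonempty with rfl | hS
    · rfl
    · obtain ⟨v, hv⟩ := hP.lv_nonempty hS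
      have : quotMk P (S.erase v) ∈ quotDel P (quotMk P S) := quot_mem_del.2 ⟨v, hv, rfl⟩
      rw [h] at this
      exact absurd this (Multiset.notMem_zero _)
  sz_o := rfl
  card_le := by
    intro t
    obtain ⟨S, rfl⟩ := quot_surj t
    rw [quot_del, quot_sz, Multiset.card_map, Finset.card_val]
    exact Finset.card_le_card fun v hv => (mem_lv.1 hv).1

theorem quot_key (hP : Par P) {S : Finset W} {t v : W} (ht : t ∈ tops P S) (hv : v ∈ lv P S)
    (hvt : v ∈ tree P S t) :
    quotComp P (quotMk P (S.erase v)) + {quotMk P (tree P S t)} =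
      quotComp P (quotMk P S) + (quotFo hP).nz (quotMk P ((tree P S t).erase v)) := by
  have hcons : (tops P S).val = t ::ₘ ((tops P S).erase t).val := by
    rw [Finset.erase_val, Multiset.cons_erase ht]
  have hoth : ∀ t' ∈ (tops P S).erase t, v ∉ tree P S t' := fun t' ht' h =>
    (Finset.mem_erase.1 ht').1 (hP.top_uniq (Finset.mem_erase.1 ht').2 ht h hvt)
  have hne : ∀ t' ∈ (tops P S).erase t, t' ≠ v := fun t' ht' h =>
    hoth t' ht' (h ▸ self_mem_tree (mem_tops.1 (Finset.mem_erase.1 ht').2).1)
  have hZ : (((tops P S).erase t).val.map fun t' => quotMk P (tree P (S.erase v) t')) =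
      ((tops P S).erase t).val.map fun t' => quotMk P (tree P S t') :=
    Multiset.map_congr rfl fun t' ht' => by
      rw [tree_erase hv (hne t' ht'), Finset.erase_eq_of_notMem (hoth t' ht')]
  have h1 : quotComp P (quotMk P S) =
      (((tops P S).erase t).val.map fun t' => quotMk P (tree P S t')) +
        {quotMk P (tree P S t)} := by
    rw [quot_comp, hcons, Multiset.map_cons, add_comm, Multiset.singleton_add]
  have h2 : quotComp P (quotMk P (S.erase v)) =
      (((tops P S).erase t).val.map fun t' => quotMk P (tree P S t')) +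
        (quotFo hP).nz (quotMk P ((tree P S t).erase v)) := by
    rw [quot_comp, tops_erase hv]
    by_cases hvt' : t = v
    · subst hvt'
      have h0 : (quotFo hP).nz (quotMk P ((tree P S t).erase t)) = 0 := by
        rw [tree_leaf hv, Finset.erase_singleton]
        exact if_pos rfl
      rw [h0, add_zero, hZ]
    · have hv' : v ∉ tops P S := fun h =>
        hvt' (hP.top_uniq ht h hvt (self_mem_tree (mem_lv.1 hv).1))
      have h0 : (quotFo hP).nz (quotMk P ((tree P S t).erase v)) =
          {quotMk P ((tree P S t).erase v)} := by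
        refine if_neg fun h => ?_
        have h3 : t ∈ (tree P S t).erase v :=
          Finset.mem_erase.2 ⟨hvt', self_mem_tree (mem_tops.1 ht).1⟩
        rw [quot_eq_empty h] at h3
        exact Finset.notMem_empty _ h3
      rw [h0, Finset.erase_eq_of_notMem hv', hcons, Multiset.map_cons, hZ, tree_erase hv hvt',
        add_comm, Multiset.singleton_add]
  rw [h1, h2, add_right_comm]

theorem quot_top {S : Finset W} {a : Quotient (quotS P)} (h : quotComp P (quotMk P S) = {a}) :
    ∃ t, tops P S = {t} := by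
  have := congrArg Multiset.card h
  rw [quot_comp, Multiset.card_map, Finset.card_val, Multiset.card_singleton] at this
  exact Finset.card_eq_one.1 this

omit [DecidableEq W] in
theorem quot_top_mem {S : Finset W} {t : W} (h : tops P S = {t}) : t ∈ tops P S :=
  h ▸ Finset.mem_singleton_self t

/-- Components and removal of the tops for the classes. -/
noncomputable def quotTr (hP : Par P) : (quotFo hP).Tr where
  comp := quotComp P
  bt := quotBt P
  inj := by
    intro a b h
    obtain ⟨S, rfl⟩ := quot_surj a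
    obtain ⟨S', rfl⟩ := quot_surj b
    rw [quot_comp, quot_comp] at h
    obtain ⟨e, he, h'⟩ := quot_bij _ _ _ _ h
    obtain ⟨f, hf, -⟩ := hP.glue he fun t ht => quot_mk_eq.1 (h' t ht)
    exact quot_mk_eq.2 ⟨f, hf⟩
  ne_o := by
    intro a h
    obtain ⟨S, rfl⟩ := quot_surj a
    obtain ⟨t, ht, e⟩ := quot_mem_comp.1 h
    have h3 : t ∈ tree P S t := self_mem_tree (mem_tops.1 ht).1
    rw [quot_eq_empty e] at h3
    exact Finset.notMem_empty _ h3
  fwd := by
    intro a R hR D hD
    obtain ⟨S, rfl⟩ := quot_surj a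
    obtain ⟨t, ht, rfl⟩ := quot_mem_comp.1 hR
    obtain ⟨v, hv, rfl⟩ := quot_mem_del.1 hD
    obtain ⟨hv1, hv2⟩ := (hP.mem_lv_tree ht).1 hv
    exact ⟨_, quot_mem_del.2 ⟨v, hv1, rfl⟩, quot_key hP ht hv1 hv2⟩
  bwd := by
    intro a y hy
    obtain ⟨S, rfl⟩ := quot_surj a
    obtain ⟨v, hv, rfl⟩ := quot_mem_del.1 hy
    obtain ⟨t, ht, hvt⟩ := hP.exists_top (mem_lv.1 hv).1
    exact ⟨_, quot_mem_comp.2 ⟨t, ht, rfl⟩, _,
      quot_mem_del.2 ⟨v, (hP.mem_lv_tree ht).2 ⟨hv, hvt⟩, rfl⟩, quot_key hP ht hv hvt⟩
  comp_le := by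
    intro a
    obtain ⟨S, rfl⟩ := quot_surj a
    change (quotComp P (quotMk P S)).card ≤ (quotDel P (quotMk P S)).card
    rw [quot_comp, quot_del, Multiset.card_map, Multiset.card_map, Finset.card_val,
      Finset.card_val]
    have h : ∀ t, t ∈ tops P S → ∃ v, v ∈ lv P S ∧ v ∈ tree P S t := fun t ht => by
      obtain ⟨v, hv⟩ := hP.lv_nonempty ⟨t, self_mem_tree (P := P) (mem_tops.1 ht).1⟩
      exact ⟨v, (hP.mem_lv_tree ht).1 hv⟩
    choose! l hl using h
    refine Finset.card_le_card_of_injOn l (fun t ht => (hl t ht).1) fun t ht t' ht' e => ?_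
    exact hP.top_uniq ht ht' (hl t ht).2 (e ▸ (hl t' ht').2)
  tree := by
    intro a R hR
    obtain ⟨S, rfl⟩ := quot_surj a
    obtain ⟨t, ht, rfl⟩ := quot_mem_comp.1 hR
    rw [quot_comp, hP.tops_tree ht, Finset.singleton_val, Multiset.map_singleton,
      hP.tree_tree ht]
  bt_inj := by
    intro a b ha hb h
    obtain ⟨S, rfl⟩ := quot_surj a
    obtain ⟨S', rfl⟩ := quot_surj b
    obtain ⟨t, ht⟩ := quot_top ha
    obtain ⟨t', ht'⟩ := quot_top hb
    rw [quot_bt, quot_bt, ht, ht', Finset.sdiff_singleton_eq_erase,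
      Finset.sdiff_singleton_eq_erase] at h
    obtain ⟨f, hf⟩ := quot_mk_eq.1 h
    exact quot_mk_eq.2 (hP.iso_of_erase ht ht' hf)
  bt_sz := by
    intro a ha
    obtain ⟨S, rfl⟩ := quot_surj a
    obtain ⟨t, ht⟩ := quot_top ha
    change quotSz P (quotBt P (quotMk P S)) + 1 = quotSz P (quotMk P S)
    rw [quot_bt, quot_sz, quot_sz, ht, Finset.sdiff_singleton_eq_erase]
    exact Finset.card_erase_add_one (mem_tops.1 (quot_top_mem ht)).1
  bt_del := by
    intro a ha h2
    obtain ⟨S, rfl⟩ := quot_surj a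
    obtain ⟨t, ht⟩ := quot_top ha
    change 2 ≤ S.card at h2
    change quotDel P (quotBt P (quotMk P S)) = (quotDel P (quotMk P S)).map (quotBt P)
    have hlv : ∀ v ∈ lv P S, v ≠ t := by
      rintro v hv rfl
      have h3 : S ⊆ {v} := fun u hu => by
        obtain ⟨t', ht', hu'⟩ := hP.exists_top hu
        rw [ht, Finset.mem_singleton] at ht'
        rw [ht', tree_leaf hv] at hu'
        exact hu'
      have h4 := Finset.card_le_card h3
      rw [Finset.card_singleton] at h4
      omega
    have h5 : lv P (S.erase t) = lv P S := by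
      ext v
      rw [hP.mem_lv_erase ht]
      exact ⟨fun h => h.1, fun h => ⟨h, hlv v h⟩⟩
    rw [quot_bt, ht, Finset.sdiff_singleton_eq_erase, quot_del, quot_del, h5, Multiset.map_map]
    refine Multiset.map_congr rfl fun v hv => ?_
    have h6 : v ∉ ({t} : Finset W) := fun h => hlv v hv (Finset.mem_singleton.1 h)
    rw [Function.comp_apply, quot_bt, tops_erase hv, ht, Finset.erase_eq_of_notMem h6,
      Finset.sdiff_singleton_eq_erase, Finset.erase_right_comm]

theorem Par.exists_fo (hP : Par P) : ∃ (C : Type) (F : Fo C) (_ : F.Tr) (mk : Finset W → C),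
    (∀ S S', mk S = mk S' ↔ ∃ f, Iso P f S S') ∧
    ∀ S, F.del (mk S) = (lv P S).val.map fun v => mk (S.erase v) :=
  ⟨_, quotFo hP, quotTr hP, quotMk P, fun _ _ => quot_mk_eq, fun _ => rfl⟩

end Pool.Agent.Lib.MP_528c50_co.Cs
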