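import Pool.Agent.Lib.MP_528c50_co.Cs.Core
import Pool.Agent.Lib.MP_528c50_co.Cs.Quot
import Pool.Agent.Lib.MP_528c50_co.Cs.Graph

/-! Two unions of components of one graph with the same endpoint deck. -/

namespace Pool.Agent.Lib.MP_528c50_co.Cs

open Finset Function

variable {W K L : Type} [DecidableEq W] {G : SimpleGraph W} {P : W → W → Prop} {A : Finset W}

omit [DecidableEq W] in
theorem mw_adj (h : Skel G P) {u w : W} (e : P u w) : G.Adj u w :=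
  (h.adj u w).2 (Or.inr (Or.inl e))

omit [DecidableEq W] in
theorem mw_good (h : Skel G P) (hA : ∀ u ∈ A, ∀ w, G.Adj u w → w ∈ A) : Good G P A :=
  ⟨fun x hx _ y _ e => hA x hx y e, fun u hu w e => hA u hu w (mw_adj h e)⟩

theorem mw_good_erase (h : Skel G P) (hA : ∀ u ∈ A, ∀ w, G.Adj u w → w ∈ A) {v : W}
    (hv : ∃! w, G.Adj v w) : Good G P (A.erase v) := by
  obtain ⟨h1, h2⟩ := h.leaf.1 hv
  refine ⟨fun x hx _ y hy e => mem_erase.2 ⟨fun a => h1 (a ▸ hy), hA x (mem_of_mem_erase hx) y e⟩,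
    fun u hu w e => mem_erase.2 ⟨fun a => h2 u (a ▸ e), ?_⟩⟩
  exact hA u (mem_of_mem_erase hu) w (mw_adj h e)

theorem mw_side [Fintype L] [DecidableEq K] (h : Skel G P)
    (hA : ∀ u ∈ A, ∀ w, G.Adj u w → w ∈ A) {ι : K → W} (hi : Injective ι)
    (hι : ∀ u, (∃ x, ι x = u) ↔ u ∈ A ∧ u ∈ core G) {e : L → W} (he : Injective e)
    (he1 : ∀ u, (∃ v, e v = u) ↔ u ∈ A ∧ ∃! w, G.Adj u w) {C : Type} (F : Fo C)
    (mk : Finset W → C)
    (hd : ∀ S, F.del (mk S) = (lv P S).val.map fun v => mk (S.erase v)) :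
    ∃ (b : L → K) (d : L → C),
      (∀ x, (univ.filter fun v => b v = x).val.map d =
        F.del (mk ((tree P A (ι x)).erase (ι x)))) ∧
      ∀ v x, update (fun x => mk ((tree P A (ι x)).erase (ι x))) (b v) (d v) x =
        mk ((tree P (A.erase (e v)) (ι x)).erase (ι x)) := by
  have hP := h.par
  have gA := mw_good h hA
  have tp : ∀ x, ι x ∈ tops P A := fun x => (h.mem_tops gA).2 ((hι _).1 ⟨x, rfl⟩)
  have e1 : ∀ v, e v ∈ A ∧ e v ∉ core G ∧ ∀ w, ¬ P w (e v) := fun v =>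
    ⟨((he1 _).1 ⟨v, rfl⟩).1, h.leaf.1 ((he1 _).1 ⟨v, rfl⟩).2⟩
  have e2 : ∀ v, e v ∈ lv P A := fun v => mem_lv.2 ⟨(e1 v).1, fun w _ => (e1 v).2.2 w⟩
  have e3 : ∀ v x, ι x ≠ e v := fun v x a => (e1 v).2.1 (a ▸ ((hι _).1 ⟨x, rfl⟩).2)
  have ex : ∀ v, ∃ x, e v ∈ tree P A (ι x) := fun v => by
    obtain ⟨t, ht, hv⟩ := hP.exists_top (e1 v).1
    obtain ⟨x, rfl⟩ := (hι t).2 ((h.mem_tops gA).1 ht)
    exact ⟨x, hv⟩
  choose b hb using ex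
  have ub : ∀ v x, e v ∈ tree P A (ι x) → b v = x := fun v x a =>
    hi (hP.top_uniq (tp _) (tp _) (hb v) a)
  refine ⟨b, fun v => mk (((tree P A (ι (b v))).erase (ι (b v))).erase (e v)), fun x => ?_,
    fun v x => ?_⟩
  · have s : lv P ((tree P A (ι x)).erase (ι x)) =
        (univ.filter fun v => b v = x).map ⟨e, he⟩ := by
      ext u
      rw [hP.mem_lv_erase (hP.tops_tree (tp x)), hP.mem_lv_tree (tp x), mem_map]
      constructor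
      · rintro ⟨⟨a1, a2⟩, a3⟩
        obtain ⟨a4, a5⟩ := mem_lv.1 a1
        have a6 : u ∉ core G := fun a => a3 (hP.top_uniq ((h.mem_tops gA).2 ⟨a4, a⟩) (tp x)
          (self_mem_tree a4) a2)
        obtain ⟨v, rfl⟩ := (he1 u).2 ⟨a4, h.leaf.2 ⟨a6, fun w a =>
          a5 w (hA u a4 w (mw_adj h a).symm) a⟩⟩
        exact ⟨v, mem_filter.2 ⟨mem_univ _, ub v x a2⟩, rfl⟩
      · rintro ⟨v, hv, rfl⟩
        obtain rfl := (mem_filter.1 hv).2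
        exact ⟨⟨e2 v, hb v⟩, (e3 v _).symm⟩
    rw [hd, s, map_val, Multiset.map_map]
    refine Multiset.map_congr rfl fun v hv => ?_
    obtain rfl := (mem_filter.1 hv).2
    rfl
  · rw [tree_erase (e2 v) (e3 v x)]
    by_cases a : x = b v
    · rw [a, update_self, erase_right_comm]
    · rw [update_of_ne a, erase_eq_of_notMem fun z => a (ub v x z).symm]

theorem mw_core (h : Skel G P) {B : Finset W} (hA : ∀ u ∈ A, ∀ w, G.Adj u w → w ∈ A)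
    (hB : ∀ u ∈ B, ∀ w, G.Adj u w → w ∈ B) {ι : K → W} (hi : Injective ι)
    (hι : ∀ u, (∃ x, ι x = u) ↔ u ∈ A ∧ u ∈ core G) {v v' : W} (hv : ∃! w, G.Adj v w)
    (hv' : ∃! w, G.Adj v' w) {f : W → W} (hf : Iso G.Adj f (A.erase v) (B.erase v')) :
    (∀ x, ι x ∈ A.erase v) ∧ Injective (f ∘ ι) ∧
      ∀ u, (∃ x, (f ∘ ι) x = u) ↔ u ∈ B ∧ u ∈ core G := by
  have g1 := mw_good_erase h hA hv
  have g2 := mw_good_erase h hB hv'
  have m : ∀ x, ι x ∈ A.erase v := fun x => mem_erase.2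
    ⟨fun a => (h.leaf.1 hv).1 (a ▸ ((hι _).1 ⟨x, rfl⟩).2), ((hι _).1 ⟨x, rfl⟩).1⟩
  have t := (h.iso g1 g2 hf).tops
  refine ⟨m, fun x y a => hi (hf.1.injOn (m x) (m y) a), fun u => ⟨?_, fun a => ?_⟩⟩
  · rintro ⟨x, rfl⟩
    have a := (h.mem_tops g2).1 (t.mapsTo ((h.mem_tops g1).2 ⟨m x, ((hι _).1 ⟨x, rfl⟩).2⟩))
    exact ⟨mem_of_mem_erase a.1, a.2⟩
  · obtain ⟨s, hs, rfl⟩ := t.surjOn ((h.mem_tops g2).2
      ⟨mem_erase.2 ⟨fun z => (h.leaf.1 hv').1 (z ▸ a.2), a.1⟩, a.2⟩)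
    have s2 := (h.mem_tops g1).1 hs
    obtain ⟨x, rfl⟩ := (hι s).2 ⟨mem_of_mem_erase s2.1, s2.2⟩
    exact ⟨x, rfl⟩

theorem mw_final (h : Skel G P) {B : Finset W} (hA : ∀ u ∈ A, ∀ w, G.Adj u w → w ∈ A)
    (hB : ∀ u ∈ B, ∀ w, G.Adj u w → w ∈ B) {ι κ : K → W} (hi : Injective ι)
    (hι : ∀ u, (∃ x, ι x = u) ↔ u ∈ A ∧ u ∈ core G) (hj : Injective κ)
    (hκ : ∀ u, (∃ x, κ x = u) ↔ u ∈ B ∧ u ∈ core G)
    (ha : ∀ a b, G.Adj (κ a) (κ b) ↔ G.Adj (ι a) (ι b))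
    (ht : ∀ x, ∃ f, Iso P f ((tree P A (ι x)).erase (ι x)) ((tree P B (κ x)).erase (κ x))) :
    ∃ f, Iso G.Adj f A B := by
  have hP := h.par
  have gA := mw_good h hA
  have gB := mw_good h hB
  have tA : ∀ u, u ∈ tops P A ↔ ∃ x, ι x = u := fun u => (h.mem_tops gA).trans (hι u).symm
  have tB : ∀ u, u ∈ tops P B ↔ ∃ x, κ x = u := fun u => (h.mem_tops gB).trans (hκ u).symm
  have ee : ∀ x, extend ι κ id (ι x) = κ x := fun x => hi.extend_apply _ _ x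
  obtain ⟨f, hf, hf2⟩ := hP.glue (S := A) (S' := B) (e := extend ι κ id) (by
    refine ⟨fun u hu => ?_, fun u hu w hw a => ?_, fun u hu => ?_⟩
    · obtain ⟨x, rfl⟩ := (tA u).1 hu
      exact (tB _).2 ⟨x, (ee x).symm⟩
    · obtain ⟨x, rfl⟩ := (tA u).1 hu
      obtain ⟨y, rfl⟩ := (tA w).1 hw
      rw [ee, ee] at a
      rw [hj a]
    · obtain ⟨x, rfl⟩ := (tB u).1 hu
      exact ⟨ι x, (tA _).2 ⟨x, rfl⟩, ee x⟩) (fun t a => by
    obtain ⟨x, rfl⟩ := (tA t).1 a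
    obtain ⟨f, hf⟩ := ht x
    rw [ee]
    exact hP.iso_of_erase (hP.tops_tree a) (hP.tops_tree ((tB _).2 ⟨x, rfl⟩)) hf)
  have kk : ∀ u ∈ A, f u ∈ core G ↔ u ∈ core G := fun u hu => by
    constructor
    · intro a
      obtain ⟨s, hs, e⟩ := hf.tops.surjOn ((h.mem_tops gB).2 ⟨hf.1.mapsTo hu, a⟩)
      have s2 := (h.mem_tops gA).1 hs
      exact hf.1.injOn s2.1 hu e ▸ s2.2
    · exact fun a => ((h.mem_tops gB).1 (hf.tops.mapsTo ((h.mem_tops gA).2 ⟨hu, a⟩))).2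
  refine ⟨f, hf.1, fun u hu w hw => ?_⟩
  rw [h.adj (f u), h.adj u, hf.2 u hu w hw, hf.2 w hw u hu, kk u hu, kk w hw]
  refine or_congr_left (and_congr_right fun a => and_congr_right fun b => ?_)
  obtain ⟨x, rfl⟩ := (hι u).2 ⟨hu, a⟩
  obtain ⟨y, rfl⟩ := (hι w).2 ⟨hw, b⟩
  rw [hf2 _ ((tA _).2 ⟨x, rfl⟩), hf2 _ ((tA _).2 ⟨y, rfl⟩), ee, ee, ha]

/-- The permutations that preserve adjacency of the images. -/
def autG (G : SimpleGraph W) (ι : K → W) : Subgroup (Equiv.Perm K) where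
  carrier := {g | ∀ a b, G.Adj (ι (g a)) (ι (g b)) ↔ G.Adj (ι a) (ι b)}
  one_mem' := fun _ _ => Iff.rfl
  mul_mem' := fun {g _} hg hg' a b => (hg _ _).trans (hg' a b)
  inv_mem' := fun {g} hg a b => by simpa using (hg (g⁻¹ a) (g⁻¹ b)).symm

theorem mainW [Fintype K] [DecidableEq K] [Fintype L] (hc : ∀ v, ∃ x ∈ core G, G.Reachable v x)
    {B : Finset W} (hA : ∀ u ∈ A, ∀ w, G.Adj u w → w ∈ A) (hB : ∀ u ∈ B, ∀ w, G.Adj u w → w ∈ B)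
    {ι : K → W} (hi : Injective ι) (hι : ∀ u, (∃ x, ι x = u) ↔ u ∈ A ∧ u ∈ core G)
    {e e' : L → W} (he : Injective e) (he1 : ∀ u, (∃ v, e v = u) ↔ u ∈ A ∧ ∃! w, G.Adj u w)
    (he' : Injective e') (he1' : ∀ u, (∃ v, e' v = u) ↔ u ∈ B ∧ ∃! w, G.Adj u w)
    (hf : ∀ v, ∃ f, Iso G.Adj f (A.erase (e v)) (B.erase (e' v))) {l : ℕ}
    (hl : Irr (autG G ι) l) (hk : (4 * l * (Nat.log 2 l + 4) + 2) ^ 2 ≤ Fintype.card L) :
    ∃ f, Iso G.Adj f A B := by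
  obtain ⟨P, h⟩ := exists_skel hc
  obtain ⟨C, F, T, mk, hmk, hd⟩ := h.par.exists_fo
  have l1 : ∀ v, ∃! w, G.Adj (e v) w := fun v => ((he1 _).1 ⟨v, rfl⟩).2
  have l2 : ∀ v, ∃! w, G.Adj (e' v) w := fun v => ((he1' _).1 ⟨v, rfl⟩).2
  obtain ⟨v0⟩ : Nonempty L := Fintype.card_pos_iff.1 (lt_of_lt_of_le (by positivity) hk)
  obtain ⟨f0, hf0⟩ := hf v0
  obtain ⟨m0, hj, hκ⟩ := mw_core h hA hB hi hι (l1 v0) (l2 v0) hf0
  have ha : ∀ a b, G.Adj ((f0 ∘ ι) a) ((f0 ∘ ι) b) ↔ G.Adj (ι a) (ι b) := fun a b =>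
    hf0.2 _ (m0 a) _ (m0 b)
  generalize f0 ∘ ι = κ at hj hκ ha
  obtain ⟨b, d, s1, s2⟩ := mw_side h hA hi hι he he1 F mk hd
  obtain ⟨b', d', s1', s2'⟩ := mw_side h hB hj hκ he' he1' F mk hd
  obtain ⟨hy, hcard⟩ := F.hyp_of_index (Γ := autG G ι)
    (c := fun x => mk ((tree P A (ι x)).erase (ι x)))
    (c' := fun x => mk ((tree P B (κ x)).erase (κ x))) b b' d d' s1 s1' fun v => by
      obtain ⟨f, hf⟩ := hf v
      obtain ⟨m, hj1, hκ1⟩ := mw_core h hA hB hi hι (l1 v) (l2 v) hf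
      choose g hg using fun x => (hκ _).2 ((hκ1 _).1 ⟨x, rfl⟩)
      have gi : Injective g := fun x y a => hj1 (by rw [← hg, ← hg, a])
      refine ⟨Equiv.ofBijective g (Finite.injective_iff_bijective.1 gi), fun x y => ?_,
        funext fun x => ?_⟩
      · refine (ha _ _).symm.trans ?_
        rw [Equiv.ofBijective_apply, Equiv.ofBijective_apply, hg, hg]
        exact hf.2 _ (m x) _ (m y)
      · rw [comp_apply, s2, s2', Equiv.ofBijective_apply, hg]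
        exact (hmk _ _).2 ⟨f, ((h.iso (mw_good_erase h hA (l1 v)) (mw_good_erase h hB (l2 v))
          hf).tree (m x)).erase (self_mem_tree (m x))⟩
  obtain ⟨g, hg, e⟩ := F.main (F.del_inj T) hy hl (hcard ▸ hk)
  refine mw_final h hA hB hi hι (κ := κ ∘ g) (hj.comp g.injective) (fun u => ?_)
    (fun a b => (ha _ _).trans (hg a b)) fun x => (hmk _ _).1 (congrFun e x)
  rw [← hκ]
  exact ⟨fun ⟨x, a⟩ => ⟨g x, a⟩, fun ⟨x, a⟩ => ⟨g.symm x, by simpa using a⟩⟩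

end Pool.Agent.Lib.MP_528c50_co.Cs
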