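import Pool.Agent.Lib.MP_528c50_co.Cs.Defs

/-! The multiset of colours is determined by the cards; forests are determined by their cards. -/

namespace Pool.Agent.Lib.MP_528c50_co.Cs

open Multiset

variable {C : Type} (F : Fo C)

theorem ms_pos {M : Multiset C} (hM : F.o ∉ M) {R : C} (h : R ∈ M) : 1 ≤ F.sz R :=
  Nat.one_le_iff_ne_zero.2 fun e => hM (F.eq_o_of_sz e ▸ h)

theorem ms_symm {M M' : Multiset C} {R D R' D' : C} (h : F.Quad M M' R D R' D') :
    F.Quad M' M R' D' R D :=
  ⟨h.2.2.1, h.2.2.2.1, h.1, h.2.1, h.2.2.2.2.symm⟩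

theorem ms_nz {D : C} (h : D ≠ F.o) : F.nz D = {D} := by
  unfold Fo.nz
  exact if_neg h

theorem ms_nz_o : F.nz F.o = 0 := by
  unfold Fo.nz
  exact if_pos rfl

theorem ms_mem_nz {D X : C} (h : X ∈ F.nz D) : X = D := by
  by_cases e : D = F.o
  · rw [e, ms_nz_o] at h
    exact absurd h (notMem_zero X)
  · rw [ms_nz F e] at h
    exact mem_singleton.1 h

theorem ms_cp_one (j : ℕ) (D : C) :
    countP (fun t => F.sz t = j) {D} = if F.sz D = j then 1 else 0 := by
  rw [← cons_zero, countP_cons, countP_zero, zero_add]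

theorem ms_cp_nz {j : ℕ} (hj : 1 ≤ j) (D : C) :
    countP (fun t => F.sz t = j) (F.nz D) = if F.sz D = j then 1 else 0 := by
  by_cases e : D = F.o
  · rw [e, ms_nz_o, countP_zero, F.sz_o, if_neg (by omega)]
  · rw [ms_nz F e, ms_cp_one]

/-- The numbers of colours of a given size, compared through one common card. -/
theorem ms_cp {M M' : Multiset C} {R D R' D' : C} (h : F.Quad M M' R D R' D') {j : ℕ}
    (hj : 1 ≤ j) :
    countP (fun t => F.sz t = j) M + (if F.sz R = j + 1 then 1 else 0)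
        + (if F.sz R' = j then 1 else 0)
      = countP (fun t => F.sz t = j) M' + (if F.sz R' = j + 1 then 1 else 0)
        + (if F.sz R = j then 1 else 0) := by
  have e := congrArg (countP fun t => F.sz t = j) h.2.2.2.2
  simp only [countP_add, ms_cp_nz F hj, ms_cp_one] at e
  have a := F.sz_del _ _ h.2.1
  have b := F.sz_del _ _ h.2.2.2.1
  have a' : (F.sz R = j + 1) ↔ F.sz D = j := by omega
  have b' : (F.sz R' = j + 1) ↔ F.sz D' = j := by omega
  simp only [a', b']
  exact e

/-- If one common card has a larger colour on the left, then so has every common card. -/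
theorem ms_gt {M M' : Multiset C} (hM : F.o ∉ M) (hM' : F.o ∉ M') {R D R' D' S E S' E' : C}
    (h : F.Quad M M' R D R' D') (hlt : F.sz R' < F.sz R) (g : F.Quad M M' S E S' E') :
    F.sz S = F.sz R ∧ F.sz S' < F.sz R := by
  have p1 := ms_pos F hM h.1
  have p2 := ms_pos F hM g.1
  have p3 := ms_pos F hM' g.2.2.1
  have a1 := ms_cp F h p1
  have a2 := ms_cp F h p2
  have a3 := ms_cp F h p3
  have b1 := ms_cp F g p1
  have b2 := ms_cp F g p2
  have b3 := ms_cp F g p3
  rw [if_neg (by omega), if_neg (by omega), if_neg (by omega), if_pos rfl] at a1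
  rcases lt_trichotomy (F.sz S) (F.sz S') with l | l | l
  · exfalso
    rw [if_neg (by omega), if_pos rfl, if_neg (by omega), if_neg (by omega)] at b3
    rcases lt_trichotomy (F.sz S') (F.sz R) with k | k | k
    · rw [if_neg (by omega), if_neg (by omega), if_neg (by omega), if_neg (by omega)] at b1
      omega
    · rw [k] at b3
      omega
    · rw [if_neg (by omega), if_neg (by omega), if_neg (by omega), if_neg (by omega)] at a3
      omega
  · exfalso
    rw [l] at b1
    omega
  · rw [if_neg (by omega), if_neg (by omega), if_neg (by omega), if_pos rfl] at b2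
    rcases lt_trichotomy (F.sz S) (F.sz R) with k | k | k
    · exfalso
      rw [if_neg (by omega), if_neg (by omega), if_neg (by omega), if_neg (by omega)] at b1
      omega
    · omega
    · exfalso
      rw [if_neg (by omega), if_neg (by omega), if_neg (by omega), if_neg (by omega)] at a2
      omega

theorem ms_two {M M' : Multiset C} (hM : F.o ∉ M) (hM' : F.o ∉ M')
    (h1 : ∀ R ∈ M, ∀ D ∈ F.del R, ∃ R' D', F.Quad M M' R D R' D')
    (h2 : ∀ R' ∈ M', ∀ D' ∈ F.del R', ∃ R D, F.Quad M M' R D R' D') {R D R' D' : C}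
    (h : F.Quad M M' R D R' D') (hlt : F.sz R' < F.sz R) : F.Two M M' := by
  have p1 := ms_pos F hM h.1
  have u1 : ∀ S ∈ M, F.sz S = F.sz R := fun S hS => by
    obtain ⟨E, hE⟩ := F.exists_del (t := S) fun e => hM (e ▸ hS)
    obtain ⟨S', E', g⟩ := h1 S hS E hE
    exact (ms_gt F hM hM' h hlt g).1
  have u2 : ∀ S' ∈ M', F.sz S' < F.sz R := fun S' hS => by
    obtain ⟨E', hE⟩ := F.exists_del (t := S') fun e => hM' (e ▸ hS)
    obtain ⟨S, E, g⟩ := h2 S' hS E' hE
    exact (ms_gt F hM hM' h hlt g).2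
  have a1 := ms_cp F h p1
  rw [if_neg (by omega), if_neg (by omega), if_neg (by omega), if_pos rfl,
    countP_eq_card.2 u1, countP_eq_zero.2 fun S hS => (u2 S hS).ne] at a1
  obtain ⟨A, rfl⟩ := card_eq_one.1 (show card M = 1 by omega)
  obtain rfl : R = A := mem_singleton.1 h.1
  have key : ∀ {S E S' E' : C}, F.Quad {R} M' S E S' E' →
      F.sz S' = 1 ∧ M' = F.nz E + {S'} := by
    intro S E S' E' g
    obtain rfl : S = R := mem_singleton.1 g.1
    have a := F.sz_del _ _ g.2.1
    have b := F.sz_del _ _ g.2.2.2.1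
    have c := u2 S' g.2.2.1
    have e : F.nz E + {S'} = M' + F.nz E' := by
      have e0 := g.2.2.2.2
      rw [add_assoc, add_comm] at e0
      exact add_right_cancel e0
    have z : E' = F.o := by
      by_contra ne
      have m : E' ∈ F.nz E + {S'} := by
        rw [e, ms_nz F ne]
        exact mem_add.2 (Or.inr (mem_singleton_self _))
      rcases mem_add.1 m with m | m
      · rw [ms_mem_nz F m] at b
        omega
      · rw [mem_singleton.1 m] at b
        omega
    rw [z, F.sz_o] at b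
    rw [z, ms_nz_o, add_zero] at e
    exact ⟨by omega, e.symm⟩
  obtain ⟨s1, e1⟩ := key h
  have a := F.sz_del _ _ h.2.1
  have ne : D ≠ F.o := fun e => by
    rw [e, F.sz_o] at a
    omega
  rw [ms_nz F ne] at e1
  have mD : D ∈ M' := by
    rw [e1]
    exact mem_add.2 (Or.inl (mem_singleton_self _))
  obtain ⟨E', hE⟩ := F.exists_del ne
  obtain ⟨S, E, g⟩ := h2 D mD E' hE
  have s2 := (key g).1
  exact ⟨R, D, R', rfl, e1, by omega, s2, s1⟩

open Classical in
theorem ms_ct_nz {D X : C} (h : F.sz D ≠ F.sz X) : count X (F.nz D) = 0 :=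
  count_eq_zero.2 fun m => h (by rw [ms_mem_nz F m])

open Classical in
/-- The numbers of copies of a colour that is not small, compared through one common card. -/
theorem ms_ct {M M' : Multiset C} {R D R' D' : C} (h : F.Quad M M' R D R' D')
    (e : F.sz R = F.sz R') {X : C} (hX : F.sz R ≤ F.sz X) :
    count X M + (if X = R' then 1 else 0) = count X M' + (if X = R then 1 else 0) := by
  have a := F.sz_del _ _ h.2.1
  have b := F.sz_del _ _ h.2.2.2.1
  have c := congrArg (count X) h.2.2.2.2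
  simp only [count_add, count_singleton] at c
  rw [ms_ct_nz F (D := D) (by omega), ms_ct_nz F (D := D') (by omega)] at c
  exact c

theorem ms_ne {M M' : Multiset C} (hne : M ≠ M')
    (h2 : ∀ R' ∈ M', ∀ D' ∈ F.del R', ∃ R D, F.Quad M M' R D R' D')
    (hs : ∀ R D R' D', F.Quad M M' R D R' D' → F.sz R = F.sz R') {R D R' D' : C}
    (h : F.Quad M M' R D R' D') : R ≠ R' := by
  classical
  rintro rfl
  have a := F.sz_del _ _ h.2.1
  have b := F.sz_del _ _ h.2.2.2.1
  have e : M + F.nz D = M' + F.nz D' := add_right_cancel h.2.2.2.2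
  have n : D ≠ D' := fun n => hne (add_right_cancel (n ▸ e))
  have n1 : D ≠ F.o := fun z => n (by
    rw [z, F.sz_o] at a
    rw [z]
    exact (F.eq_o_of_sz (by omega)).symm)
  obtain ⟨S, E, g⟩ := h2 R h.2.2.1 D h.2.1
  have s := hs _ _ _ _ g
  have c1 := ms_ct F h rfl le_rfl
  have c2 := ms_ct F g s s.le
  rw [if_pos rfl] at c1 c2
  have k : R = S := by
    by_contra k
    rw [if_neg k] at c2
    omega
  subst k
  have e' : M + F.nz E = M' + F.nz D := add_right_cancel g.2.2.2.2
  have d1 := congrArg (count D) e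
  have d2 := congrArg (count D) e'
  rw [count_add, count_add, ms_nz F n1, count_singleton_self] at d1 d2
  rw [count_eq_zero.2 fun m => n (ms_mem_nz F m)] at d1
  have d3 : count D (F.nz E) ≤ 1 := by
    by_cases z : E = F.o
    · rw [z, ms_nz_o, count_zero]
      omega
    · rw [ms_nz F z, count_singleton]
      split_ifs <;> omega
  omega

theorem ms_same {M M' : Multiset C} {R D R' D' S E S' E' : C} (h : F.Quad M M' R D R' D')
    (g : F.Quad M M' S E S' E') (e : F.sz R = F.sz R') (e' : F.sz S = F.sz S') (n : R ≠ R')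
    (n' : S ≠ S') (l : F.sz R ≤ F.sz S) : S = R := by
  classical
  have c1 := ms_ct F h e l
  have c2 := ms_ct F g e' le_rfl
  rw [if_neg n', if_pos rfl] at c2
  by_contra k
  rw [if_neg k] at c1
  omega

theorem ms_one {M M' : Multiset C} (hM : F.o ∉ M) (hM' : F.o ∉ M')
    (h1 : ∀ R ∈ M, ∀ D ∈ F.del R, ∃ R' D', F.Quad M M' R D R' D')
    (h2 : ∀ R' ∈ M', ∀ D' ∈ F.del R', ∃ R D, F.Quad M M' R D R' D')
    (hs : ∀ R D R' D', F.Quad M M' R D R' D' → F.sz R = F.sz R')
    (hn : ∀ R D R' D', F.Quad M M' R D R' D' → R ≠ R') {R D R' D' : C}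
    (h : F.Quad M M' R D R' D') : M = {R} := by
  classical
  have same : ∀ {S E S' E' : C}, F.Quad M M' S E S' E' → S = R ∧ S' = R' := by
    intro S E S' E' g
    have e := hs _ _ _ _ h
    have e' := hs _ _ _ _ g
    have n := hn _ _ _ _ h
    have n' := hn _ _ _ _ g
    rcases le_total (F.sz R) (F.sz S) with l | l
    · exact ⟨ms_same F h g e e' n n' l, ms_same F (ms_symm F h) (ms_symm F g) e.symm e'.symm
        n.symm n'.symm (by omega)⟩
    · exact ⟨(ms_same F g h e' e n' n l).symm, (ms_same F (ms_symm F g) (ms_symm F h) e'.symm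
        e.symm n'.symm n.symm (by omega)).symm⟩
  have u1 : ∀ S ∈ M, S = R := fun S hS => by
    obtain ⟨E, hE⟩ := F.exists_del (t := S) fun e => hM (e ▸ hS)
    obtain ⟨S', E', g⟩ := h1 S hS E hE
    exact (same g).1
  have u2 : R ∉ M' := fun hS => by
    obtain ⟨E', hE⟩ := F.exists_del (t := R) fun e => hM' (e ▸ hS)
    obtain ⟨S, E, g⟩ := h2 R hS E' hE
    exact hn _ _ _ _ h (same g).2
  have c := ms_ct F h (hs _ _ _ _ h) le_rfl
  rw [if_neg (hn _ _ _ _ h), if_pos rfl, count_eq_zero.2 u2,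
    count_eq_card.2 fun S hS => (u1 S hS).symm] at c
  obtain ⟨A, rfl⟩ := card_eq_one.1 (show card M = 1 by omega)
  rw [u1 A (mem_singleton_self A)]

theorem Fo.ms {M M' : Multiset C} (hM : F.o ∉ M) (hM' : F.o ∉ M')
    (h1 : ∀ R ∈ M, ∀ D ∈ F.del R, ∃ R' D', F.Quad M M' R D R' D')
    (h2 : ∀ R' ∈ M', ∀ D' ∈ F.del R', ∃ R D, F.Quad M M' R D R' D') :
    M = M' ∨ (∃ A A', M = {A} ∧ M' = {A'} ∧ F.sz A = F.sz A') ∨ F.Two M M' ∨ F.Two M' M := by
  have k1 : ∀ R' ∈ M', ∀ D' ∈ F.del R', ∃ R D, F.Quad M' M R' D' R D := fun R' m D' d => by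
    obtain ⟨R, D, g⟩ := h2 R' m D' d
    exact ⟨R, D, ms_symm F g⟩
  have k2 : ∀ R ∈ M, ∀ D ∈ F.del R, ∃ R' D', F.Quad M' M R' D' R D := fun R m D d => by
    obtain ⟨R', D', g⟩ := h1 R m D d
    exact ⟨R', D', ms_symm F g⟩
  by_cases hne : M = M'
  · exact Or.inl hne
  by_cases hs : ∀ R D R' D', F.Quad M M' R D R' D' → F.sz R = F.sz R'
  · have hn : ∀ R D R' D', F.Quad M M' R D R' D' → R ≠ R' := fun _ _ _ _ g =>
      ms_ne F hne h2 hs g
    have ex : ∃ R D R' D', F.Quad M M' R D R' D' := by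
      by_cases z : M = 0
      · obtain ⟨R', m⟩ := exists_mem_of_ne_zero (s := M') fun e => hne (z.trans e.symm)
        obtain ⟨D', d⟩ := F.exists_del (t := R') fun e => hM' (e ▸ m)
        obtain ⟨R, D, g⟩ := h2 R' m D' d
        exact ⟨R, D, R', D', g⟩
      · obtain ⟨R, m⟩ := exists_mem_of_ne_zero z
        obtain ⟨D, d⟩ := F.exists_del (t := R) fun e => hM (e ▸ m)
        obtain ⟨R', D', g⟩ := h1 R m D d
        exact ⟨R, D, R', D', g⟩
    obtain ⟨R, D, R', D', g⟩ := ex
    refine Or.inr (Or.inl ⟨R, R', ms_one F hM hM' h1 h2 hs hn g, ?_, hs _ _ _ _ g⟩)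
    exact ms_one F hM' hM k1 k2 (fun _ _ _ _ q => (hs _ _ _ _ (ms_symm F q)).symm)
      (fun _ _ _ _ q => (hn _ _ _ _ (ms_symm F q)).symm) (ms_symm F g)
  · push Not at hs
    obtain ⟨R, D, R', D', g, n⟩ := hs
    rcases lt_or_gt_of_ne n with l | l
    · exact Or.inr (Or.inr (Or.inr (ms_two F hM' hM k1 k2 (ms_symm F g) l)))
    · exact Or.inr (Or.inr (Or.inl (ms_two F hM hM' h1 h2 g l)))

theorem ms_quad (T : F.Tr) {a b : C} (e : F.del a = F.del b) :
    ∀ R ∈ T.comp a, ∀ D ∈ F.del R, ∃ R' D', F.Quad (T.comp a) (T.comp b) R D R' D' := by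
  intro R m D d
  obtain ⟨y, hy, e1⟩ := T.fwd a R m D d
  obtain ⟨R', m', D', d', e2⟩ := T.bwd b y (e ▸ hy)
  refine ⟨R', D', m, d, m', d', ?_⟩
  rw [← e1, ← e2, add_right_comm]

theorem ms_tree (T : F.Tr) {a A : C} (e : T.comp a = {A}) : a = A :=
  T.inj (e.trans (T.tree a A (e ▸ mem_singleton_self A)).symm)

theorem ms_not_two (T : F.Tr) {a b : C} (e : F.del a = F.del b) :
    ¬ F.Two (T.comp a) (T.comp b) := by
  rintro ⟨A, B, B', e1, e2, s, -, -⟩
  obtain rfl := ms_tree F T e1
  have c1 := T.comp_le b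
  have c2 := F.card_le (T.bt a)
  have c3 := T.bt_sz a e1
  rw [T.bt_del a e1 s.ge, card_map] at c2
  rw [e2, ← e, card_pair] at c1
  omega

theorem Fo.del_inj (T : F.Tr) : Function.Injective F.del := by
  have key : ∀ n, ∀ a b, F.sz a = n → F.del a = F.del b → a = b := by
    intro n
    induction n using Nat.strong_induction_on with
    | _ n ih =>
      intro a b hn e
      have k2 : ∀ R' ∈ T.comp b, ∀ D' ∈ F.del R',
          ∃ R D, F.Quad (T.comp a) (T.comp b) R D R' D' := fun R' m D' d => by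
        obtain ⟨R, D, g⟩ := ms_quad F T e.symm R' m D' d
        exact ⟨R, D, ms_symm F g⟩
      rcases F.ms (T.ne_o a) (T.ne_o b) (ms_quad F T e) k2 with h | ⟨A, A', e1, e2, s⟩ | h | h
      · exact T.inj h
      · obtain rfl := ms_tree F T e1
        obtain rfl := ms_tree F T e2
        have c1 := T.bt_sz a e1
        have c2 := T.bt_sz b e2
        refine T.bt_inj a b e1 e2 ?_
        by_cases l : 2 ≤ F.sz a
        · refine ih _ (by omega) _ _ rfl ?_
          rw [T.bt_del a e1 l, T.bt_del b e2 (by omega), e]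
        · rw [F.eq_o_of_sz (t := T.bt a) (by omega), F.eq_o_of_sz (t := T.bt b) (by omega)]
      · exact absurd h (ms_not_two F T e)
      · exact absurd h (ms_not_two F T e.symm)
  exact fun a b e => key _ a b rfl e

end Pool.Agent.Lib.MP_528c50_co.Cs
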